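import Pool.Agent.Helper511_AmpleT.Tangent

set_option autoImplicit false

/-!
Line bundles and ampleness.
-/

open CategoryTheory AlgebraicGeometry

namespace Pool.Agent.Helper511T

open Pool.Agent.W506 (ro rs)

variable {X : Scheme.{0}}

/-- The section `e` of the `O_X`-module `L` over the open set `U` generates `L` freely: for every
open `V ≤ U`, each section of `L` over `V` is `a • e|_V` for exactly one function `a` on `V`. -/
def IsGenerator (L : X.Modules) (U : X.Opens) (e : Γ(L, U)) : Prop :=
  ∀ (V : X.Opens) (h : V ≤ U), Function.Bijective (fun a : Γ(X, V) => a • rs L h e)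

/-- `L` is a line bundle (an invertible sheaf): each point has an open neighbourhood over which `L`
is freely generated by one section. -/
def IsLineBundle (L : X.Modules) : Prop :=
  ∀ x : X, ∃ (U : X.Opens) (_ : x ∈ U) (e : Γ(L, U)), IsGenerator L U e

/-- A global section `s` of the tensor power `L^{⊗ n}` of a line bundle `L`, given by its
coordinates: to each generator `e` of `L` over an open set `U` it attaches the function `val U e` on
`U` with `s|_U = val U e • e^{⊗ n}`. The coordinates are compatible with restriction, and changing
`e` to `u • e` (`u` is then a unit) divides them by `u ^ n`. -/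
structure PowerSection (L : X.Modules) (n : ℕ) where
  /-- the coordinate of the section with respect to a generator -/
  val : ∀ (U : X.Opens) (e : Γ(L, U)), IsGenerator L U e → Γ(X, U)
  res : ∀ (U V : X.Opens) (h : V ≤ U) (e : Γ(L, U)) (he : IsGenerator L U e)
    (he' : IsGenerator L V (rs L h e)), val V (rs L h e) he' = ro h (val U e he)
  smul : ∀ (U : X.Opens) (e : Γ(L, U)) (he : IsGenerator L U e) (u : Γ(X, U))
    (he' : IsGenerator L U (u • e)), val U (u • e) he' * u ^ n = val U e he

/-- The open set `U` is the set `X_s` of the points where the section `s` of `L^{⊗ n}` does not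
vanish: over each open `V` with a generator `e`, it is the non-vanishing locus of the coordinate
of `s`. -/
def PowerSection.IsNonvanishingLocus {L : X.Modules} {n : ℕ} (s : PowerSection L n)
    (U : X.Opens) : Prop :=
  ∀ (V : X.Opens) (e : Γ(L, V)) (he : IsGenerator L V e), X.basicOpen (s.val V e he) = V ⊓ U

/-- The line bundle `L` on `X` is ample: `X` is quasi-compact, and for each point `x` there are
`n ≥ 1` and a section `s` of `L^{⊗ n}` such that the open set `X_s` where `s` does not vanish is
affine and contains `x`. -/
def IsAmple (L : X.Modules) : Prop :=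
  CompactSpace X ∧ ∀ x : X, ∃ (n : ℕ) (_ : 1 ≤ n) (s : PowerSection L n) (U : X.Opens),
    s.IsNonvanishingLocus U ∧ IsAffineOpen U ∧ x ∈ U

end Pool.Agent.Helper511T
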