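import Pool.Agent.Helper511_AmpleT.Qf

set_option autoImplicit false
set_option linter.unusedSectionVars false

/-!
The stalks of `Proj`, and non-vanishing loci.
-/

universe u

open CategoryTheory TopologicalSpace AlgebraicGeometry HomogeneousLocalization Opposite

namespace Pool.Agent.Helper511T

open Pool.Agent.W506 (ro ro_ro ro_refl rs)

set_option backward.isDefEq.respectTransparency false

variable {A : Type u} [CommRing A] [IsDomain A] {σ : Type*} [SetLike σ A] [AddSubgroupClass σ A]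
  {𝒜 : ℕ → σ} [GradedRing 𝒜]

/-- the stalk -/
noncomputable def stalkEv (x : Proj 𝒜) : (Proj 𝒜).presheaf.stalk x ≃+*
    HomogeneousLocalization.AtPrime 𝒜 x.asHomogeneousIdeal.toIdeal := Proj.stalkIso' 𝒜 x

lemma stalkEv_germ {V : (Proj 𝒜).Opens} (s : Γ(Proj 𝒜, V)) (x : Proj 𝒜) (hx : x ∈ V) :
    stalkEv x ((Proj 𝒜).presheaf.germ V x hx s) = ev s x hx :=
  Proj.stalkIso'_germ 𝒜 V x hx s

lemma mem_basicOpen_ev {V : (Proj 𝒜).Opens} (s : Γ(Proj 𝒜, V)) (x : Proj 𝒜) (hx : x ∈ V) :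
    x ∈ (Proj 𝒜).basicOpen s ↔ IsUnit (ev s x hx) := by
  rw [Scheme.mem_basicOpen _ _ _ hx, ← stalkEv_germ]
  exact (MulEquiv.isUnit_map (stalkEv x)).symm

lemma isUnit_mk {P : Ideal A} [P.IsPrime] (c : NumDenSameDeg 𝒜 P.primeCompl) :
    IsUnit (HomogeneousLocalization.mk c) ↔ (c.num : A) ∉ P := by
  rw [← isUnit_iff_isUnit_val, HomogeneousLocalization.val_mk, Localization.mk_eq_mk',
    IsLocalization.AtPrime.isUnit_mk'_iff (Localization.AtPrime P) P]
  rfl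

lemma mem_basicOpen_qf {V : (Proj 𝒜).Opens} {m : ℕ} (a b : 𝒜 m) (hb) (x : Proj 𝒜) (hx : x ∈ V) :
    x ∈ (Proj 𝒜).basicOpen (qf a b hb : Γ(Proj 𝒜, V)) ↔ (a : A) ∉ x.asHomogeneousIdeal := by
  rw [mem_basicOpen_ev _ _ hx, ev_qf, isUnit_mk]
  rfl

end Pool.Agent.Helper511T
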