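import Pool.Agent.Helper511_AmpleT.Bundle
import Pool.Agent.Helper511_AmpleT.StalkEv
import Pool.Agent.Helper511_AmpleT.Defs

set_option autoImplicit false
set_option linter.unusedSectionVars false

/-!
`O(1)` is an ample line bundle on the quadric.
-/

open MvPolynomial HomogeneousLocalization AlgebraicGeometry CategoryTheory TopologicalSpace

namespace Pool.Agent.Helper511T

open Pool.Agent.W506 (ro ro_ro ro_refl rs rs_rs rs_smul rs_refl ap)
open Pool.Agent.R924 (IsGen)

set_option backward.isDefEq.respectTransparency false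

section General

variable {X : Scheme.{0}} {L : X.Modules}

lemma isGenerator_of_isGen {U : X.Opens} {e : Γ(L, U)} (h : IsGen e) : IsGenerator L U e :=
  fun _ hV => ⟨fun _ _ hab => h.smul_inj hV hab, fun s => h.exists_smul hV s⟩

lemma IsGenerator.rs {U V : X.Opens} {e : Γ(L, U)} (h : IsGenerator L U e) (hV : V ≤ U) :
    IsGenerator L V (rs L hV e) := by
  intro W hW
  have := h W (hW.trans hV)
  rw [← rs_rs hW hV] at this
  exact this

/-- the coordinate of a section with respect to a generator -/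
noncomputable def coord (s : Γ(L, ⊤)) (U : X.Opens) (e : Γ(L, U)) (he : IsGenerator L U e) :
    Γ(X, U) := ((he U le_rfl).2 (Pool.Agent.W506.rs L le_top s)).choose

lemma coord_smul (s : Γ(L, ⊤)) (U : X.Opens) (e : Γ(L, U)) (he : IsGenerator L U e) :
    coord s U e he • e = Pool.Agent.W506.rs L le_top s := by
  have h : coord s U e he • Pool.Agent.W506.rs L le_rfl e = Pool.Agent.W506.rs L le_top s :=
    ((he U le_rfl).2 (Pool.Agent.W506.rs L le_top s)).choose_spec
  generalize coord s U e he = c at h ⊢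
  rwa [rs_refl] at h

lemma IsGenerator.inj {U : X.Opens} {e : Γ(L, U)} (he : IsGenerator L U e) {a b : Γ(X, U)}
    (h : a • e = b • e) : a = b := by
  apply (he U le_rfl).1
  change a • Pool.Agent.W506.rs L le_rfl e = b • Pool.Agent.W506.rs L le_rfl e
  rw [rs_refl, h]

lemma coord_eq {s : Γ(L, ⊤)} {U : X.Opens} {e : Γ(L, U)} (he : IsGenerator L U e) {a : Γ(X, U)}
    (h : a • e = Pool.Agent.W506.rs L le_top s) : coord s U e he = a :=
  he.inj (by rw [coord_smul, h])

/-- A global section as a section of the first power. -/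
noncomputable def ofSection (s : Γ(L, ⊤)) : PowerSection L 1 where
  val U e he := coord s U e he
  res U V h e he he' := by
    apply coord_eq
    rw [← rs_smul, coord_smul, rs_rs]
  smul U e he u he' := by
    rw [pow_one]
    apply (coord_eq ..).symm
    rw [mul_smul, coord_smul]

end General

variable (k : Type) [Field k] [CharP k 2]

lemma isLineBundle_LL : IsLineBundle (LL k) := by
  intro y
  obtain ⟨j, hj⟩ := UU_cover k y
  exact ⟨UU k j, hj, ee k j, isGenerator_of_isGen (ee_gen k j)⟩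

lemma isAffineOpen_UU (j : Fin 4) : IsAffineOpen (UU k j) :=
  Proj.isAffineOpen_basicOpen (gr k) _ (x_mem k j.succ) one_pos

lemma compactSpace_QQ : CompactSpace (QQ k) := by
  rw [← isCompact_univ_iff]
  have : (Set.univ : Set (QQ k)) = ⋃ j, (UU k j : Set (QQ k)) := by
    symm
    rw [Set.eq_univ_iff_forall]
    intro y
    obtain ⟨j, hj⟩ := UU_cover k y
    exact Set.mem_iUnion.2 ⟨j, hj⟩
  rw [this]
  exact isCompact_iUnion fun j => (isAffineOpen_UU k j).isCompact

lemma locus (s : Γ(LL k, ⊤)) (j : Fin 4)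
    (hs : ∀ l, rs (LL k) (le_top : UU k l ≤ ⊤) s = cc k j.succ l • ee k l) :
    (ofSection s).IsNonvanishingLocus (UU k j) := by
  intro V e he
  change (QQ k).basicOpen (coord s V e he) = V ⊓ UU k j
  ext y
  by_cases hyV : y ∈ V
  swap
  · constructor
    · intro h
      exact absurd ((QQ k).basicOpen_le _ h) hyV
    · intro h
      exact absurd h.1 hyV
  obtain ⟨l, hl⟩ := UU_cover k y
  have hyW : y ∈ V ⊓ UU k l := ⟨hyV, hl⟩
  have hel : IsGenerator (LL k) (UU k l) (ee k l) := isGenerator_of_isGen (ee_gen k l)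
  have h1 := he.rs (inf_le_left : V ⊓ UU k l ≤ V)
  have h2 := hel.rs (inf_le_right : V ⊓ UU k l ≤ UU k l)
  obtain ⟨c, hc⟩ := (h1 _ le_rfl).2 (rs (LL k) inf_le_right (ee k l))
  obtain ⟨d, hd⟩ := (h2 _ le_rfl).2 (rs (LL k) inf_le_left e)
  change c • rs (LL k) le_rfl _ = _ at hc
  change d • rs (LL k) le_rfl _ = _ at hd
  rw [rs_refl] at hc hd
  have hdc : d * c = 1 := by
    apply h1.inj
    rw [mul_smul, hc, hd, one_smul]
  have hval : ro (inf_le_left : V ⊓ UU k l ≤ V) (coord s V e he) =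
      ro inf_le_right (cc k j.succ l) * c := by
    apply h1.inj
    rw [← rs_smul, coord_smul, mul_smul, hc, ← rs_smul, ← hs l, rs_rs, rs_rs]
  have hy1 : y ∈ (QQ k).basicOpen (coord s V e he) ↔
      y ∈ (QQ k).basicOpen (ro (inf_le_left : V ⊓ UU k l ≤ V) (coord s V e he)) := by
    have : (QQ k).basicOpen (ro (inf_le_left : V ⊓ UU k l ≤ V) (coord s V e he)) =
      (V ⊓ UU k l) ⊓ (QQ k).basicOpen (coord s V e he) := Scheme.basicOpen_res _ _ _
    rw [this]
    exact ⟨fun h => ⟨hyW, h⟩, fun h => h.2⟩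
  change y ∈ (QQ k).basicOpen (coord s V e he) ↔ y ∈ V ⊓ UU k j
  rw [hy1, hval, mem_basicOpen_ev _ _ hyW, ev_mul]
  have hcu : IsUnit (ev c y hyW) := by
    refine isUnit_iff_exists_inv'.2 ⟨ev d y hyW, ?_⟩
    rw [← ev_mul, hdc, ev_one]
  rw [IsUnit.mul_iff, and_iff_left hcu, ev_ro, cc, ev_qf, isUnit_mk]
  exact ⟨fun h => ⟨hyV, h⟩, fun h => h.2⟩

theorem isAmple_LL : IsAmple (LL k) := by
  refine ⟨compactSpace_QQ k, fun y => ?_⟩
  obtain ⟨j, hj⟩ := UU_cover k y
  obtain ⟨s, hs⟩ := exists_section k j.succ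
  exact ⟨1, le_rfl, ofSection s, UU k j, locus k s j hs, isAffineOpen_UU k j, hj⟩

end Pool.Agent.Helper511T
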