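import Pool.Agent.Helper511_AmpleT.ProjVF

set_option autoImplicit false
set_option linter.unusedSectionVars false

/-!
Fractions as functions on `Proj` of a graded domain.
-/

universe u

open CategoryTheory TopologicalSpace AlgebraicGeometry HomogeneousLocalization Opposite

namespace Pool.Agent.Helper511T

open Pool.Agent.W506 (ro ro_ro ro_refl rs)

variable {A : Type u} [CommRing A] [IsDomain A] {σ : Type*} [SetLike σ A] [AddSubgroupClass σ A]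
  {𝒜 : ℕ → σ} [GradedRing 𝒜]

/-- the function `a / b` -/
def qf {V : (Proj 𝒜).Opens} {m : ℕ} (a b : 𝒜 m)
    (hb : ∀ y : Proj 𝒜, y ∈ V → (b : A) ∈ y.asHomogeneousIdeal.toIdeal.primeCompl) :
    Γ(Proj 𝒜, V) :=
  mkSec (fun y hy => HomogeneousLocalization.mk ⟨m, a, b, hb y hy⟩)
    (fun _ hy => ⟨V, le_rfl, hy, m, a, b, hb, fun _ _ => rfl⟩)

lemma ev_qf {V : (Proj 𝒜).Opens} {m : ℕ} (a b : 𝒜 m) (hb) (y : Proj 𝒜) (hy : y ∈ V) :
    ev (qf a b hb) y hy = HomogeneousLocalization.mk ⟨m, a, b, hb y hy⟩ := rfl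

lemma ro_qf {V W : (Proj 𝒜).Opens} (h : W ≤ V) {m : ℕ} (a b : 𝒜 m) (hb) :
    ro h (qf a b hb) = qf a b (fun y hy => hb y (h hy)) := rfl

lemma qf_eq {V : (Proj 𝒜).Opens} {m m' : ℕ} {a b : 𝒜 m} {c d : 𝒜 m'} {hb}
    {hd : ∀ y : Proj 𝒜, y ∈ V → (d : A) ∈ y.asHomogeneousIdeal.toIdeal.primeCompl}
    (h : (a : A) * d = c * b) : (qf a b hb : Γ(Proj 𝒜, V)) = qf c d hd := by
  apply ev_ext
  intro y hy
  rw [ev_qf, ev_qf, mk_eq_mk (zero_notMem_primeCompl _)]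
  exact h

lemma qf_mul {V : (Proj 𝒜).Opens} {m m' : ℕ} (a b : 𝒜 m) (c d : 𝒜 m') (hb)
    (hd : ∀ y : Proj 𝒜, y ∈ V → (d : A) ∈ y.asHomogeneousIdeal.toIdeal.primeCompl) :
    (qf a b hb : Γ(Proj 𝒜, V)) * qf c d hd =
      qf (⟨a * c, SetLike.mul_mem_graded a.2 c.2⟩ : 𝒜 (m + m'))
        ⟨b * d, SetLike.mul_mem_graded b.2 d.2⟩ (fun y hy => mul_mem (hb y hy) (hd y hy)) := by
  apply ev_ext
  intro y hy
  rfl

lemma qf_self {V : (Proj 𝒜).Opens} {m : ℕ} {a b : 𝒜 m} {hb} (h : (a : A) = b) :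
    (qf a b hb : Γ(Proj 𝒜, V)) = 1 := by
  apply ev_ext
  intro y hy
  rw [ev_qf, ev_one]
  change _ = HomogeneousLocalization.mk (1 : NumDenSameDeg 𝒜 _)
  rw [mk_eq_mk (zero_notMem_primeCompl _)]
  simp [h]

end Pool.Agent.Helper511T
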