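import Pool.Agent.Helper511_AmpleT.DerS
import Pool.Agent.Helper511_AmpleT.Qf
import Pool.Agent.R924.D1
import Pool.Agent.W506.L1

set_option autoImplicit false
set_option linter.unusedSectionVars false

/-!
The line bundle `O(1)` of the quadric and its map to the tangent sheaf.
-/

open MvPolynomial HomogeneousLocalization AlgebraicGeometry CategoryTheory TopologicalSpace

namespace Pool.Agent.Helper511T

open Pool.Agent.W506 (ro ro_ro ro_refl rs rs_rs rs_smul ap Compat exists_glued isBasisOn_glued)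
open Pool.Agent.R924 (IsGen)

set_option backward.isDefEq.respectTransparency false

attribute [local instance] MvPolynomial.gradedAlgebra

variable (k : Type) [Field k] [CharP k 2]

/-- the quadric -/
noncomputable abbrev QQ (k : Type) [Field k] : Scheme.{0} := Proj (gr k)

/-- the charts -/
noncomputable def UU (j : Fin 4) : (QQ k).Opens := Proj.basicOpen (gr k) (x k j.succ)

lemma mem_UU (j : Fin 4) (y : QQ k) :
    y ∈ UU k j ↔ x k j.succ ∈ y.asHomogeneousIdeal.toIdeal.primeCompl := Iff.rfl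

lemma UU_cover (y : QQ k) : ∃ j, y ∈ UU k j := by
  rcases exists_notMem k y.isPrime y.not_irrelevant_le with h | h | h | h
  · exact ⟨0, h⟩
  · exact ⟨1, h⟩
  · exact ⟨2, h⟩
  · exact ⟨3, h⟩

/-- the coordinates, in degree one -/
noncomputable def xx (j : Fin 5) : gr k 1 := ⟨x k j, x_mem k j⟩

/-- the transition functions `x_l / x_j` -/
noncomputable def gg (j l : Fin 4) : Γ(QQ k, UU k j ⊓ UU k l) :=
  qf (xx k l.succ) (xx k j.succ) (fun _ hy => hy.1)

lemma gg_self (i : Fin 4) : gg k i i = 1 := qf_self rfl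

lemma gg_cocycle (i j l : Fin 4) : ro (le_inf (inf_le_left.trans inf_le_left) inf_le_right :
        (UU k i ⊓ UU k j) ⊓ UU k l ≤ UU k i ⊓ UU k l) (gg k i l) =
      ro (inf_le_left : (UU k i ⊓ UU k j) ⊓ UU k l ≤ UU k i ⊓ UU k j) (gg k i j) *
      ro (le_inf (inf_le_left.trans inf_le_right) inf_le_right :
        (UU k i ⊓ UU k j) ⊓ UU k l ≤ UU k j ⊓ UU k l) (gg k j l) := by
  rw [gg, gg, gg, ro_qf, ro_qf, ro_qf, qf_mul]
  apply qf_eq
  change x k l.succ * (x k i.succ * x k j.succ) = (x k j.succ * x k l.succ) * x k i.succ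
  ring

/-- The line bundle `O(1)`. -/
noncomputable def LL : (QQ k).Modules := (exists_glued (UU k) (gg k)).choose

/-- The generators. -/
noncomputable def ee : ∀ j, Γ(LL k, UU k j) := (exists_glued (UU k) (gg k)).choose_spec.choose

lemma ee_compat : Compat (UU k) (gg k) (ee k) :=
  (exists_glued (UU k) (gg k)).choose_spec.choose_spec.1

lemma LL_hom (M : (QQ k).Modules) (t : ∀ j, Γ(M, UU k j)) (ht : Compat (UU k) (gg k) t) :
    ∃ f : LL k ⟶ M, ∀ j, ap f _ (ee k j) = t j :=
  (exists_glued (UU k) (gg k)).choose_spec.choose_spec.2.1 M t ht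

lemma ee_gen (j : Fin 4) : IsGen (ee k j) :=
  isBasisOn_glued (UU k) (gg k) (gg_self k) (gg_cocycle k) (LL k) (ee k) (ee_compat k)
    (LL_hom k) (exists_glued (UU k) (gg k)).choose_spec.choose_spec.2.2 j

/-- The coordinate functions `x_i / x_j`. -/
noncomputable def cc (i : Fin 5) (j : Fin 4) : Γ(QQ k, UU k j) :=
  qf (xx k i) (xx k j.succ) (fun _ hy => hy)

lemma iSup_UU : (⊤ : (QQ k).Opens) ≤ ⨆ j, UU k j := by
  intro y _
  obtain ⟨j, hj⟩ := UU_cover k y
  exact Opens.mem_iSup.2 ⟨j, hj⟩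

/-- The global sections `x_i` of `O(1)`. -/
theorem exists_section (i : Fin 5) : ∃ s : Γ(LL k, ⊤), ∀ j,
    rs (LL k) (le_top : UU k j ≤ ⊤) s = cc k i j • ee k j := by
  apply Pool.Agent.W506.exists_glue (M := LL k) (UU k) (fun j => le_top) (iSup_UU k)
  intro j l
  rw [rs_smul, rs_smul, ee_compat k j l, smul_smul]
  congr 1
  rw [cc, cc, ro_qf, ro_qf, gg, qf_mul]
  apply qf_eq
  change x k i * (x k l.succ * x k j.succ) = (x k i * x k l.succ) * x k j.succ
  ring

section Hom

variable [IsAlgClosed k] (π : QQ k ⟶ Spec (CommRingCat.of k))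

/-- The vector fields `x_j ∂/∂x₀`. -/
noncomputable def vv (j : Fin 4) : Γ(tangentSheaf π, UU k j) := (xd k j.succ).vf π (UU k j)

lemma vv_compat : Compat (UU k) (gg k) (vv k π) := by
  intro j l
  refine VF.ext' (π := π) fun V hV s => ?_
  change (xd k l.succ).app V s = ro hV (gg k j l) * (xd k j.succ).app V s
  apply ev_ext
  intro y hy
  rw [ev_mul, Der0.ev_app, Der0.ev_app, gg, ro_qf, ev_qf]
  obtain ⟨c, hc⟩ := HomogeneousLocalization.mk_surjective (ev s y hy)
  rw [← hc]
  change HomogeneousLocalization.mk ((xd k l.succ).frac c) =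
    HomogeneousLocalization.mk (_ * (xd k j.succ).frac c)
  rw [mk_eq_mk (zero_notMem_primeCompl _)]
  simp only [NumDenSameDeg.num_mul, NumDenSameDeg.den_mul, Der0.frac, xd, xx]
  ring

/-- the generic point -/
lemma exists_mem_UU (j : Fin 4) : ∃ y : QQ k, y ∈ UU k j := by
  have hnot : ¬ HomogeneousIdeal.irrelevant (gr k) ≤ (⊥ : HomogeneousIdeal (gr k)) := by
    intro hle
    apply x_ne_zero k 0
    have h1 : x k 0 ∈ HomogeneousIdeal.irrelevant (gr k) := by
      rw [HomogeneousIdeal.mem_irrelevant_iff]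
      have : GradedRing.proj (gr k) 0 (x k 0) = (DirectSum.decompose (gr k) (x k 0) 0 : S k) := rfl
      rw [this, DirectSum.decompose_of_mem_ne (gr k) (x_mem k 0) (by norm_num)]
    have h2 := hle h1
    have h3 : x k 0 ∈ (⊥ : HomogeneousIdeal (gr k)).toIdeal := h2
    have h4 : (⊥ : HomogeneousIdeal (gr k)).toIdeal = ⊥ := rfl
    rw [h4] at h3
    exact (Submodule.mem_bot (S k)).1 h3
  refine ⟨(⟨⊥, by
    have : (⊥ : HomogeneousIdeal (gr k)).toIdeal = ⊥ := rfl
    rw [this]
    exact Ideal.isPrime_bot, hnot⟩ : ProjectiveSpectrum (gr k)), ?_⟩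
  intro h
  exact x_ne_zero k j.succ ((Submodule.mem_bot (S k)).1 h)

/-- The nonzero map `O(1) → T`. -/
theorem exists_hom : ∃ f : LL k ⟶ tangentSheaf π, f ≠ 0 := by
  obtain ⟨f, hf⟩ := LL_hom k (tangentSheaf π) (vv k π) (vv_compat k π)
  refine ⟨f, ?_⟩
  rintro rfl
  have h1 : (vv k π 0) = 0 := by rw [← hf 0]; rfl
  have h2 : (vv k π 0 : VF π (UU k 0)).app (UU k 0) le_rfl (cc k 0 0) = 0 := by
    rw [h1]
    rfl
  obtain ⟨y, hy⟩ := exists_mem_UU k 0
  have h3 : ev ((xd k 1).app (UU k 0) (cc k 0 0)) y hy = 0 := by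
    change ev ((vv k π 0 : VF π (UU k 0)).app (UU k 0) le_rfl (cc k 0 0)) y hy = 0
    rw [h2]
    rfl
  rw [Der0.ev_app, cc, ev_qf] at h3
  change HomogeneousLocalization.mk ((xd k 1).frac _) =
    HomogeneousLocalization.mk (0 : NumDenSameDeg (gr k) _) at h3
  rw [mk_eq_mk (zero_notMem_primeCompl _)] at h3
  simp only [Der0.frac, xd, xx, NumDenSameDeg.num_zero, NumDenSameDeg.den_zero] at h3
  change (x k 1 * (x k 1 * dS k (x k 0)) - x k 0 * (x k 1 * dS k (x k 1))) * 1 =
    0 * (x k 1 * x k 1) at h3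
  rw [dS_x0, dS_x k (show (1 : Fin 5) ≠ 0 by decide)] at h3
  have h4 : x k 1 * x k 1 = 0 := by linear_combination h3
  exact x_ne_zero k 1 (mul_self_eq_zero.1 h4)

end Hom

end Pool.Agent.Helper511T
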