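import Pool.Agent.Helper511_AmpleT.Quad

set_option autoImplicit false
set_option linter.unusedSectionVars false

/-!
The charts of the quadric.
-/

open MvPolynomial HomogeneousLocalization

namespace Pool.Agent.Helper511T

attribute [local instance] MvPolynomial.gradedAlgebra

lemma homog_eval {K A : Type*} [CommRing K] [CommRing A] {n : ℕ} (φ : K →+* A) (u v : Fin n → A)
    (t : A) (h : ∀ j, t * u j = v j) {f : MvPolynomial (Fin n) K} {m : ℕ}
    (hf : f.IsHomogeneous m) : t ^ m * eval₂Hom φ u f = eval₂Hom φ v f := by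
  rw [coe_eval₂Hom, coe_eval₂Hom, eval₂_eq, eval₂_eq, Finset.mul_sum]
  apply Finset.sum_congr rfl
  intro d hd
  have h1 : d.degree = m := by
    by_contra h2
    exact (mem_support_iff.1 hd) (hf.coeff_eq_zero h2)
  rw [← h1, Finsupp.degree_apply, ← Finset.prod_pow_eq_pow_sum, mul_left_comm,
    ← Finset.prod_mul_distrib]
  congr 1
  apply Finset.prod_congr rfl
  intro j _
  rw [← h j, mul_pow]

variable (k : Type) [Field k]

/-- the function `x_j / x_i` -/
noncomputable def frac (i j : Fin 5) : Away (gr k) (x k i) :=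
  Away.mk (gr k) (x_mem k i) 1 (x k j) (by simpa using x_mem k j)

/-- the constants on a chart -/
noncomputable def cst (i : Fin 5) : k →+* Away (gr k) (x k i) :=
  (fromZeroRingHom (gr k) (Submonoid.powers (x k i))).comp (algebraMap k (gr k 0))

lemma val_cst (i : Fin 5) (c : k) : (cst k i c).val =
    algebraMap (S k) (Localization (Submonoid.powers (x k i))) (algebraMap k (S k) c) := by
  change (HomogeneousLocalization.mk ⟨0, algebraMap k (gr k 0) c, 1, _⟩ :
    HomogeneousLocalization (gr k) (Submonoid.powers (x k i))).val = _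
  rw [HomogeneousLocalization.val_mk, ← Localization.mk_one_eq_algebraMap]
  rfl

lemma val_frac (i j : Fin 5) : algebraMap (S k) (Localization (Submonoid.powers (x k i))) (x k i) *
    (frac k i j).val = algebraMap (S k) (Localization (Submonoid.powers (x k i))) (x k j) := by
  rw [frac, Away.val_mk, ← Localization.mk_one_eq_algebraMap, ← Localization.mk_one_eq_algebraMap,
    Localization.mk_mul, Localization.mk_eq_mk_iff, Localization.r_iff_exists]
  refine ⟨1, ?_⟩
  simp

lemma eval_homog (i : Fin 5) {f : MvPolynomial (Fin 5) k} {m : ℕ} (hf : f.IsHomogeneous m) :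
    eval₂Hom (cst k i) (frac k i) f = Away.mk (gr k) (x_mem k i) m (Ideal.Quotient.mk (I k) f)
      (by simpa using mk_mem_gr k hf) := by
  rw [HomogeneousLocalization.ext_iff_val, Away.val_mk]
  let A := algebraMap (Away (gr k) (x k i)) (Localization (Submonoid.powers (x k i)))
  let B := algebraMap (S k) (Localization (Submonoid.powers (x k i)))
  have h1 : (eval₂Hom (cst k i) (frac k i) f).val =
      eval₂Hom (A.comp (cst k i)) (fun j => A (frac k i j)) f := by
    change A (eval₂Hom (cst k i) (frac k i) f) = _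
    rw [map_eval₂Hom]
  have h2 : B (Ideal.Quotient.mk (I k) f) =
      eval₂Hom (A.comp (cst k i)) (fun j => B (x k j)) f := by
    have : (B.comp (Ideal.Quotient.mk (I k))) =
        eval₂Hom (A.comp (cst k i)) (fun j => B (x k j)) := by
      apply MvPolynomial.ringHom_ext
      · intro c
        rw [eval₂Hom_C]
        exact (val_cst k i c).symm
      · intro j
        rw [eval₂Hom_X']
        rfl
    exact congr($this f)
  have h3 := homog_eval (A.comp (cst k i)) (fun j => A (frac k i j)) (fun j => B (x k j))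
    (B (x k i)) (fun j => val_frac k i j) hf
  rw [← h1, ← h2] at h3
  have h4 : IsUnit (B (x k i) ^ m) := by
    rw [← map_pow]
    exact IsLocalization.map_units _ (⟨x k i ^ m, m, rfl⟩ : Submonoid.powers (x k i))
  apply h4.mul_left_cancel
  rw [h3, ← map_pow]
  change algebraMap _ _ _ = algebraMap _ _ _ * _
  rw [← Localization.mk_one_eq_algebraMap, ← Localization.mk_one_eq_algebraMap,
    Localization.mk_mul, Localization.mk_eq_mk_iff, Localization.r_iff_exists]
  refine ⟨1, ?_⟩
  simp

/-- The data of a chart. -/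
structure ChartData (i : Fin 5) where
  /-- the values of the coordinates -/
  ev : Fin 5 → MvPolynomial (Fin 3) k
  /-- the coordinates on the chart -/
  co : Fin 3 → Fin 5
  h1 : ev i = 1
  h2 : aeval ev (q k) = 0
  h3 : ∀ l, ev (co l) = X l
  h4 : ∀ j, eval₂Hom (cst k i) (fun l => frac k i (co l)) (ev j) = frac k i j

variable {k}

namespace ChartData

variable {i : Fin 5} (c : ChartData k i)

/-- evaluation -/
noncomputable def ρ : S k →+* MvPolynomial (Fin 3) k :=
  Ideal.Quotient.lift (I k) (aeval c.ev : MvPolynomial (Fin 5) k →ₐ[k] _).toRingHom (by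
    intro a ha
    rw [I, Ideal.mem_span_singleton] at ha
    obtain ⟨b, rfl⟩ := ha
    change aeval c.ev (q k * b) = 0
    rw [map_mul, c.h2, zero_mul])

lemma ρ_mk (f : MvPolynomial (Fin 5) k) : c.ρ (Ideal.Quotient.mk (I k) f) = aeval c.ev f := rfl

lemma ρ_x (j : Fin 5) : c.ρ (x k j) = c.ev j := by
  rw [x, ρ_mk, aeval_X]

lemma ρ_units (y : Submonoid.powers (x k i)) : IsUnit (c.ρ y) := by
  obtain ⟨_, n, rfl⟩ := y
  change IsUnit (c.ρ (x k i ^ n))
  rw [map_pow, ρ_x, c.h1, one_pow]
  exact isUnit_one

/-- the inverse map -/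
noncomputable def β : Away (gr k) (x k i) →+* MvPolynomial (Fin 3) k :=
  (IsLocalization.lift (M := Submonoid.powers (x k i))
    (S := Localization (Submonoid.powers (x k i))) c.ρ_units).comp
    (algebraMap (Away (gr k) (x k i)) (Localization (Submonoid.powers (x k i))))

lemma β_mk (m : ℕ) (a : S k) (ha : a ∈ gr k (m • 1)) :
    c.β (Away.mk (gr k) (x_mem k i) m a ha) = c.ρ a := by
  change IsLocalization.lift (M := Submonoid.powers (x k i))
    (S := Localization (Submonoid.powers (x k i))) c.ρ_units
    (Away.mk (gr k) (x_mem k i) m a ha).val = _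
  rw [Away.val_mk, Localization.mk_eq_mk', IsLocalization.lift_mk'_spec]
  change c.ρ a = c.ρ (x k i ^ m) * c.ρ a
  rw [map_pow, ρ_x, c.h1, one_pow, one_mul]

/-- the chart map -/
noncomputable def α : MvPolynomial (Fin 3) k →+* Away (gr k) (x k i) :=
  eval₂Hom (cst k i) (fun l => frac k i (c.co l))

lemma α_C (a : k) : c.α (C a) = cst k i a := eval₂Hom_C _ _ _

lemma α_X (l : Fin 3) : c.α (X l) = frac k i (c.co l) := eval₂Hom_X' _ _ _

lemma β_cst (a : k) : c.β (cst k i a) = C a := by
  change IsLocalization.lift (M := Submonoid.powers (x k i))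
    (S := Localization (Submonoid.powers (x k i))) c.ρ_units (cst k i a).val = _
  rw [val_cst, IsLocalization.lift_eq]
  have : algebraMap k (S k) a = Ideal.Quotient.mk (I k) (C a) := rfl
  rw [this, ρ_mk, aeval_C]
  rfl

lemma β_α (f : MvPolynomial (Fin 3) k) : c.β (c.α f) = f := by
  have : c.β.comp c.α = RingHom.id _ := by
    apply MvPolynomial.ringHom_ext
    · intro a
      rw [RingHom.comp_apply, α_C, β_cst, RingHom.id_apply]
    · intro l
      rw [RingHom.comp_apply, α_X, frac, β_mk, ρ_x, c.h3, RingHom.id_apply]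
  exact congr($this f)

lemma α_β (z : Away (gr k) (x k i)) : c.α (c.β z) = z := by
  obtain ⟨m, a, ha, rfl⟩ := Away.mk_surjective (gr k) (x_mem k i) z
  have ha' : a ∈ gr k m := by simpa using ha
  obtain ⟨f, hf, rfl⟩ := exists_of_mem_gr k ha'
  rw [β_mk, ρ_mk]
  have h1 : (c.α.comp (aeval c.ev : MvPolynomial (Fin 5) k →ₐ[k] _).toRingHom) =
      eval₂Hom (cst k i) (frac k i) := by
    apply MvPolynomial.ringHom_ext
    · intro a
      rw [eval₂Hom_C, ← α_C]
      change c.α (aeval c.ev (C a)) = _
      rw [aeval_C]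
      rfl
    · intro j
      rw [eval₂Hom_X']
      change c.α (aeval c.ev (X j)) = _
      rw [aeval_X]
      exact c.h4 j
  have h2 : c.α (aeval c.ev f) = eval₂Hom (cst k i) (frac k i) f := congr($h1 f)
  rw [h2, eval_homog k i hf]

/-- the chart -/
noncomputable def equiv : MvPolynomial (Fin 3) k ≃+* Away (gr k) (x k i) :=
  RingEquiv.ofRingHom c.α c.β (RingHom.ext c.α_β) (RingHom.ext c.β_α)

end ChartData

lemma frac_self (i : Fin 5) : frac k i i = 1 := by
  rw [HomogeneousLocalization.ext_iff_val, frac, Away.val_mk, HomogeneousLocalization.val_one,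
    ← Localization.mk_one, Localization.mk_eq_mk_iff, Localization.r_iff_exists]
  refine ⟨1, ?_⟩
  simp

lemma frac_rel (i : Fin 5) :
    frac k i 0 ^ 2 + frac k i 1 * frac k i 2 + frac k i 3 * frac k i 4 = 0 := by
  have h1 := eval_homog k i (q_mem k)
  have h2 : Ideal.Quotient.mk (I k) (q k) = 0 :=
    Ideal.Quotient.eq_zero_iff_mem.2 (Ideal.subset_span rfl)
  have h3 : Away.mk (gr k) (x_mem k i) 2 (Ideal.Quotient.mk (I k) (q k))
      (by simpa using mk_mem_gr k (q_mem k)) = 0 := by
    rw [HomogeneousLocalization.ext_iff_val, Away.val_mk, HomogeneousLocalization.val_zero, h2,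
      Localization.mk_zero]
  rw [h3, q] at h1
  simpa using h1

variable (k)

/-- chart 1 -/
noncomputable def chart1 : ChartData k 1 where
  ev := ![X 0, 1, -(X 0 ^ 2 + X 1 * X 2), X 1, X 2]
  co := ![0, 3, 4]
  h1 := rfl
  h2 := by
    simp [q, Fin.isValue]
  h3 := by
    intro l
    fin_cases l <;> rfl
  h4 := by
    have hs := frac_self (k := k) 1
    have hr := frac_rel (k := k) 1
    intro j
    fin_cases j
    · simp
    · simp [hs]
    · simp
      linear_combination -hr + frac k 1 2 * hs
    · simp
    · simp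

/-- chart 2 -/
noncomputable def chart2 : ChartData k 2 where
  ev := ![X 0, -(X 0 ^ 2 + X 1 * X 2), 1, X 1, X 2]
  co := ![0, 3, 4]
  h1 := rfl
  h2 := by
    simp [q, Fin.isValue]
  h3 := by
    intro l
    fin_cases l <;> rfl
  h4 := by
    have hs := frac_self (k := k) 2
    have hr := frac_rel (k := k) 2
    intro j
    fin_cases j
    · simp
    · simp
      linear_combination -hr + frac k 2 1 * hs
    · simp [hs]
    · simp
    · simp

/-- chart 3 -/
noncomputable def chart3 : ChartData k 3 where
  ev := ![X 0, X 1, X 2, 1, -(X 0 ^ 2 + X 1 * X 2)]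
  co := ![0, 1, 2]
  h1 := rfl
  h2 := by
    simp [q, Fin.isValue]
  h3 := by
    intro l
    fin_cases l <;> rfl
  h4 := by
    have hs := frac_self (k := k) 3
    have hr := frac_rel (k := k) 3
    intro j
    fin_cases j
    · simp
    · simp
    · simp
    · simp [hs]
    · simp
      linear_combination -hr + frac k 3 4 * hs

/-- chart 4 -/
noncomputable def chart4 : ChartData k 4 where
  ev := ![X 0, X 1, X 2, -(X 0 ^ 2 + X 1 * X 2), 1]
  co := ![0, 1, 2]
  h1 := rfl
  h2 := by
    simp [q, Fin.isValue]
  h3 := by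
    intro l
    fin_cases l <;> rfl
  h4 := by
    have hs := frac_self (k := k) 4
    have hr := frac_rel (k := k) 4
    intro j
    fin_cases j
    · simp
    · simp
    · simp
    · simp
      linear_combination -hr + frac k 4 3 * hs
    · simp [hs]

end Pool.Agent.Helper511T
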