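import Mathlib

set_option autoImplicit false

/-!
A property of schemes which is invariant under isomorphism.
-/

open CategoryTheory AlgebraicGeometry TopologicalSpace

namespace Pool.Agent.Helper511T

/-- There is a nonempty open subset `U`, on which irreducible functions are prime, whose
complement is the closure of a point `b` with only the obvious generizations, and the complement
is singular at some point `v`. -/
def HasCone (X : Scheme.{0}) : Prop :=
  ∃ (U : X.Opens) (b v : X), (∃ z, z ∈ U) ∧ (∀ a : Γ(X, U), Irreducible a → Prime a) ∧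
    (∀ z, z ∉ U ↔ b ⤳ z) ∧ (∀ z, z ⤳ b → z = b ∨ ∀ w, z ⤳ w) ∧ v ∉ U ∧
    ∀ (V : X.Opens) (hv : v ∈ V) (f : Γ(X, V)), b ∉ X.basicOpen f →
      X.presheaf.germ V v hv f ∈ (IsLocalRing.maximalIdeal (X.presheaf.stalk v)) ^ 2

lemma mem_sq_of_equiv {R R' : Type} [CommRing R] [CommRing R'] [IsLocalRing R] [IsLocalRing R']
    (e : R ≃+* R') {z : R} (h : e z ∈ IsLocalRing.maximalIdeal R' ^ 2) :
    z ∈ IsLocalRing.maximalIdeal R ^ 2 := by
  have h0 : ∀ y ∈ IsLocalRing.maximalIdeal R', e.symm y ∈ IsLocalRing.maximalIdeal R := by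
    intro y hy
    rw [IsLocalRing.mem_maximalIdeal, mem_nonunits_iff] at hy ⊢
    intro hu
    exact hy ((MulEquiv.isUnit_map e.symm).1 hu)
  have h1 : ∀ y ∈ IsLocalRing.maximalIdeal R' ^ 2, e.symm y ∈ IsLocalRing.maximalIdeal R ^ 2 := by
    intro y hy
    rw [pow_two] at hy ⊢
    refine Submodule.mul_induction_on hy ?_ ?_
    · intro a ha b hb
      rw [map_mul]
      exact Ideal.mul_mem_mul (h0 a ha) (h0 b hb)
    · intro a b ha hb
      rw [map_add]
      exact add_mem ha hb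
  have h2 := h1 _ h
  rwa [RingEquiv.symm_apply_apply] at h2

theorem HasCone.of_iso {X Y : Scheme.{0}} (e : X ≅ Y) (h : HasCone X) : HasCone Y := by
  obtain ⟨U, b, v, ⟨z, hz⟩, h1, h2, h3, h4, h5⟩ := h
  obtain ⟨U', rfl⟩ : ∃ U' : Y.Opens, e.hom ⁻¹ᵁ U' = U := by
    refine ⟨e.inv ⁻¹ᵁ U, ?_⟩
    rw [← Scheme.Hom.comp_preimage, e.hom_inv_id]
    rfl
  have hs : Function.Surjective e.hom := (Scheme.homeoOfIso e).surjective
  have hi : Topology.IsInducing e.hom := (Scheme.homeoOfIso e).isInducing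
  refine ⟨U', e.hom b, e.hom v, ⟨e.hom z, hz⟩, ?_, ?_, ?_, h4, ?_⟩
  · intro a ha
    let E : Γ(Y, U') ≃+* Γ(X, e.hom ⁻¹ᵁ U') := (asIso (e.hom.app U')).commRingCatIsoToRingEquiv
    have ha' : Irreducible (E a) := (MulEquiv.irreducible_iff E).2 ha
    exact (MulEquiv.prime_iff E).1 (h1 _ ha')
  · intro z
    obtain ⟨z, rfl⟩ := hs z
    rw [hi.specializes_iff]
    exact h2 z
  · intro z hz
    obtain ⟨z, rfl⟩ := hs z
    rw [hi.specializes_iff] at hz
    rcases h3 z hz with rfl | h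
    · exact Or.inl rfl
    · right
      intro w
      obtain ⟨w, rfl⟩ := hs w
      rw [hi.specializes_iff]
      exact h w
  · intro V hv f hf
    have h6 := h5 (e.hom ⁻¹ᵁ V) hv (e.hom.app V f) (by
      rw [← Scheme.preimage_basicOpen]
      exact hf)
    let E : Y.presheaf.stalk (e.hom v) ≃+* X.presheaf.stalk v :=
      (asIso (e.hom.stalkMap v)).commRingCatIsoToRingEquiv
    apply mem_sq_of_equiv E
    have h7 : E (Y.presheaf.germ V (e.hom v) hv f) =
        X.presheaf.germ (e.hom ⁻¹ᵁ V) v hv (e.hom.app V f) :=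
      Scheme.Hom.germ_stalkMap_apply e.hom V v hv f
    rw [h7]
    exact h6

end Pool.Agent.Helper511T
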