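import Pool.Agent.Helper511_AmpleT.Pn
import Pool.Agent.Helper511_AmpleT.Inv
import Pool.Agent.Helper511_AmpleT.StalkEv

set_option autoImplicit false
set_option linter.unusedSectionVars false

/-!
Projective space does not have the property `HasCone`.
-/

open MvPolynomial HomogeneousLocalization AlgebraicGeometry CategoryTheory TopologicalSpace

namespace Pool.Agent.Helper511T

attribute [local instance] MvPolynomial.gradedAlgebra

section General

variable {A : Type} [CommRing A] [IsDomain A] {σ : Type*} [SetLike σ A] [AddSubgroupClass σ A]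
  {𝒜 : ℕ → σ} [GradedRing 𝒜]

lemma specializes_iff (y z : Proj 𝒜) :
    y ⤳ z ↔ y.asHomogeneousIdeal.toIdeal ≤ z.asHomogeneousIdeal.toIdeal := by
  rw [specializes_iff_mem_closure]
  exact (ProjectiveSpectrum.le_iff_mem_closure (𝒜 := 𝒜) y z).symm

/-- the generic point -/
lemma exists_bot {t : A} (ht : t ∈ 𝒜 1) (ht0 : t ≠ 0) :
    ∃ y : Proj 𝒜, y.asHomogeneousIdeal.toIdeal = ⊥ := by
  have hnot : ¬ HomogeneousIdeal.irrelevant 𝒜 ≤ (⊥ : HomogeneousIdeal 𝒜) := by
    intro hle
    apply ht0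
    have h1 : t ∈ HomogeneousIdeal.irrelevant 𝒜 := by
      rw [HomogeneousIdeal.mem_irrelevant_iff]
      have : GradedRing.proj 𝒜 0 t = (DirectSum.decompose 𝒜 t 0 : A) := rfl
      rw [this, DirectSum.decompose_of_mem_ne 𝒜 ht (by norm_num)]
    have h2 := hle h1
    have h3 : t ∈ (⊥ : HomogeneousIdeal 𝒜).toIdeal := h2
    have h4 : (⊥ : HomogeneousIdeal 𝒜).toIdeal = ⊥ := rfl
    rw [h4] at h3
    exact (Submodule.mem_bot A).1 h3
  exact ⟨(⟨⊥, by
    have : (⊥ : HomogeneousIdeal 𝒜).toIdeal = ⊥ := rfl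
    rw [this]
    exact Ideal.isPrime_bot, hnot⟩ : ProjectiveSpectrum 𝒜), rfl⟩

/-- fractions in the square of the maximal ideal -/
lemma mem_sq_of_mk {P : Ideal A} [P.IsPrime] (c : NumDenSameDeg 𝒜 P.primeCompl)
    (h : HomogeneousLocalization.mk c ∈
      IsLocalRing.maximalIdeal (HomogeneousLocalization.AtPrime 𝒜 P) ^ 2) :
    ∃ s, s ∉ P ∧ s * (c.num : A) ∈ P ^ 2 := by
  let φ : HomogeneousLocalization.AtPrime 𝒜 P →+* Localization.AtPrime P :=
    algebraMap (HomogeneousLocalization 𝒜 P.primeCompl) (Localization P.primeCompl)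
  have h1 : IsLocalRing.maximalIdeal (HomogeneousLocalization.AtPrime 𝒜 P) ^ 2 ≤
      ((P ^ 2).map (algebraMap A (Localization.AtPrime P))).comap φ := by
    rw [Ideal.map_pow, Localization.AtPrime.map_eq_maximalIdeal, pow_two, Ideal.mul_le]
    intro a ha b hb
    rw [Ideal.mem_comap, map_mul, pow_two]
    have h2 : ∀ a ∈ IsLocalRing.maximalIdeal (HomogeneousLocalization.AtPrime 𝒜 P),
        φ a ∈ IsLocalRing.maximalIdeal (Localization.AtPrime P) := by
      intro a ha
      rw [IsLocalRing.mem_maximalIdeal, mem_nonunits_iff] at ha ⊢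
      intro hu
      exact ha ((isUnit_iff_isUnit_val 𝒜 P a).1 hu)
    exact Ideal.mul_mem_mul (h2 a ha) (h2 b hb)
  have h2 : φ (HomogeneousLocalization.mk c) ∈
      (P ^ 2).map (algebraMap A (Localization.AtPrime P)) := h1 h
  have h3 : φ (HomogeneousLocalization.mk c) * algebraMap A (Localization.AtPrime P) c.den =
      algebraMap A (Localization.AtPrime P) c.num := by
    change Localization.mk (c.num : A) ⟨c.den, c.den_mem⟩ * algebraMap A _ (c.den : A) = _
    rw [Localization.mk_eq_mk']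
    exact IsLocalization.mk'_spec (M := P.primeCompl) (Localization.AtPrime P) (c.num : A)
      ⟨c.den, c.den_mem⟩
  have h4 := Ideal.mul_mem_right (algebraMap A (Localization.AtPrime P) c.den) _ h2
  rw [h3, IsLocalization.algebraMap_mem_map_algebraMap_iff P.primeCompl] at h4
  obtain ⟨s, hs, hsx⟩ := h4
  exact ⟨s, hs, hsx⟩

set_option backward.isDefEq.respectTransparency false in
lemma ev_mem_sq_iff {V : (Proj 𝒜).Opens} (f : Γ(Proj 𝒜, V)) (v : Proj 𝒜) (hv : v ∈ V) :
    (Proj 𝒜).presheaf.germ V v hv f ∈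
      IsLocalRing.maximalIdeal ((Proj 𝒜).presheaf.stalk v) ^ 2 ↔
    ev f v hv ∈ IsLocalRing.maximalIdeal
      (HomogeneousLocalization.AtPrime 𝒜 v.asHomogeneousIdeal.toIdeal) ^ 2 := by
  rw [← stalkEv_germ]
  constructor
  · intro h
    apply mem_sq_of_equiv (stalkEv v).symm
    rw [RingEquiv.symm_apply_apply]
    exact h
  · intro h
    exact mem_sq_of_equiv (stalkEv v) h

end General

variable (k : Type) [Field k] (n : ℕ)

variable {k n}

lemma mem_span_X {F : MvPolynomial (Fin (n + 1)) k} {d : ℕ} (hd : F.IsHomogeneous d)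
    (hd0 : d ≠ 0) : F ∈ Ideal.span (MvPolynomial.X '' (Set.univ : Set (Fin (n + 1))) :
      Set (MvPolynomial (Fin (n + 1)) k)) := by
  rw [mem_ideal_span_X_image]
  intro m hm
  have h2 : m.degree = d := by
    by_contra h2
    exact (mem_support_iff.1 hm) (hd.coeff_eq_zero h2)
  by_contra h3
  push Not at h3
  have h4 : m = 0 := by
    ext j
    exact h3 j (Set.mem_univ j)
  rw [h4, map_zero] at h2
  exact hd0 h2.symm

lemma exists_X_notMem (b : H944U.PP k n) : ∃ i, (X i : MvPolynomial (Fin (n + 1)) k) ∉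
    b.asHomogeneousIdeal.toIdeal := by
  by_contra hc
  push Not at hc
  apply b.not_irrelevant_le
  change (HomogeneousIdeal.irrelevant (HS k n)).toIdeal ≤ b.asHomogeneousIdeal.toIdeal
  rw [HomogeneousIdeal.toIdeal_irrelevant_le]
  intro i hi a ha
  have h2 : Ideal.span (MvPolynomial.X '' (Set.univ : Set (Fin (n + 1))) :
      Set (MvPolynomial (Fin (n + 1)) k)) ≤ b.asHomogeneousIdeal.toIdeal := by
    rw [Ideal.span_le]
    rintro _ ⟨j, -, rfl⟩
    exact hc j
  exact h2 (mem_span_X ha (Nat.pos_iff_ne_zero.1 hi))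

/-- The hyperplane `F = 0` is smooth. -/
lemma deg_one_contra {F : MvPolynomial (Fin (n + 1)) k} (hF0 : F ≠ 0) (hd : F.IsHomogeneous 1)
    {P : Ideal (MvPolynomial (Fin (n + 1)) k)} (hP : P.IsPrime) (hFP : F ∈ P)
    {s : MvPolynomial (Fin (n + 1)) k} (hs : s ∉ P) (h : s * F ∈ P ^ 2) : False := by
  obtain ⟨j, hj⟩ : ∃ j, pderiv j F ≠ 0 := by
    by_contra hc
    push Not at hc
    have h1 := hd.sum_X_mul_pderiv
    simp only [hc, mul_zero, Finset.sum_const_zero, one_nsmul] at h1
    exact hF0 h1.symm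
  have h1 : (pderiv j F).IsHomogeneous 0 := hd.pderiv
  have h2 : (pderiv j F).totalDegree = 0 := (totalDegree_zero_iff_isHomogeneous _).2 h1
  obtain ⟨c, hc⟩ : ∃ c, pderiv j F = C c := ⟨_, totalDegree_eq_zero_iff_eq_C.1 h2⟩
  have hc0 : c ≠ 0 := by
    rintro rfl
    rw [C_0] at hc
    exact hj hc
  have h3 : ∀ z ∈ P ^ 2, pderiv j z ∈ P := by
    intro z hz
    rw [pow_two] at hz
    refine Submodule.mul_induction_on hz ?_ ?_
    · intro a ha b hb
      rw [Derivation.leibniz]
      exact add_mem (Ideal.mul_mem_right _ _ ha) (Ideal.mul_mem_right _ _ hb)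
    · intro a b ha hb
      rw [map_add]
      exact add_mem ha hb
  have h4 := h3 _ h
  rw [Derivation.leibniz, smul_eq_mul, smul_eq_mul, hc] at h4
  have h5 : s * C c ∈ P := by
    have := sub_mem h4 (Ideal.mul_mem_right (pderiv j s) _ hFP)
    rwa [add_sub_cancel_right] at this
  rcases hP.mem_or_mem h5 with h6 | h6
  · exact hs h6
  · exact hP.ne_top (Ideal.eq_top_of_isUnit_mem _ h6 ((isUnit_iff_ne_zero.2 hc0).map C))

theorem not_hasCone_PP (k : Type) [Field k] (n : ℕ) : ¬ HasCone (H944U.PP k n) := by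
  rintro ⟨U, b, v, ⟨z0, hz0⟩, h1, h2, h3, h4, h5⟩
  have hb0 : b.asHomogeneousIdeal.toIdeal ≠ ⊥ := by
    intro h
    exact (h2 z0).2 ((specializes_iff b z0).2 (by rw [h]; exact bot_le)) hz0
  obtain ⟨F, d, hFb, hF, hFd⟩ := exists_prime_mem b.isPrime b.asHomogeneousIdeal.isHomogeneous hb0
  have hmemF : F ∈ HS k n d := hFd
  -- the point of the hypersurface
  have hnot : ¬ HomogeneousIdeal.irrelevant (HS k n) ≤
      (⟨Ideal.span {F}, Ideal.homogeneous_span _ _ (by rintro _ rfl; exact ⟨d, hFd⟩)⟩ :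
        HomogeneousIdeal (HS k n)) := by
    intro hle
    apply b.not_irrelevant_le
    refine le_trans hle ?_
    change Ideal.span {F} ≤ b.asHomogeneousIdeal.toIdeal
    rw [Ideal.span_le, Set.singleton_subset_iff]
    exact hFb
  obtain ⟨y, hy⟩ : ∃ y : H944U.PP k n, y.asHomogeneousIdeal.toIdeal = Ideal.span {F} :=
    ⟨(⟨_, by
      change (Ideal.span {F}).IsPrime
      rw [Ideal.span_singleton_prime hF.ne_zero]
      exact hF, hnot⟩ : ProjectiveSpectrum (HS k n)), rfl⟩
  have hyb : y ⤳ b := by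
    rw [specializes_iff, hy, Ideal.span_le, Set.singleton_subset_iff]
    exact hFb
  obtain ⟨η, hη⟩ := exists_bot (𝒜 := HS k n) (isHomogeneous_X k (0 : Fin (n + 1)))
    (X_ne_zero _)
  have hb : b.asHomogeneousIdeal.toIdeal = Ideal.span {F} := by
    rcases h3 y hyb with h | h
    · rw [← hy, h]
    · exfalso
      have h6 := (specializes_iff y η).1 (h η)
      rw [hη, hy, le_bot_iff, Ideal.span_singleton_eq_bot] at h6
      exact hF.ne_zero h6
  have hU : U = Proj.basicOpen (HS k n) F := by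
    ext z
    have h6 : z ∉ U ↔ F ∈ z.asHomogeneousIdeal.toIdeal := by
      rw [h2 z, specializes_iff, hb, Ideal.span_le, Set.singleton_subset_iff]
      rfl
    change z ∈ U ↔ ¬ (F ∈ z.asHomogeneousIdeal.toIdeal)
    rw [← h6, not_not]
  subst hU
  have hd0 : d ≠ 0 := by
    rintro rfl
    have h6 : F.totalDegree = 0 := (totalDegree_zero_iff_isHomogeneous _).2 hFd
    rw [totalDegree_eq_zero_iff_eq_C] at h6
    apply hF.not_isUnit
    rw [h6]
    apply IsUnit.map C
    rw [isUnit_iff_ne_zero]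
    intro h7
    rw [h7, C_0] at h6
    exact hF.ne_zero h6
  rcases Nat.lt_or_ge d 2 with hd | hd
  · -- degree one
    have hd1 : d = 1 := by omega
    subst hd1
    have hFv : F ∈ v.asHomogeneousIdeal.toIdeal := by
      by_contra h
      exact h4 h
    obtain ⟨i, hi⟩ := exists_X_notMem v
    let V : (H944U.PP k n).Opens := Proj.basicOpen (HS k n) (X i)
    let f : Γ(H944U.PP k n, V) := qf (⟨F, hFd⟩ : HS k n 1) ⟨X i, isHomogeneous_X k i⟩
      (fun _ hy => hy)
    have h6 := h5 V hi f (by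
      intro hbf
      have hbV : b ∈ V := (H944U.PP k n).basicOpen_le f hbf
      exact (mem_basicOpen_qf _ _ _ b hbV).1 hbf hFb)
    have h7 := (ev_mem_sq_iff f v hi).1 h6
    obtain ⟨s, hs, hsF⟩ := mem_sq_of_mk _ h7
    exact deg_one_contra hF.ne_zero hFd v.isPrime hFv hs hsF
  · -- degree at least two
    obtain ⟨i⟩ : Nonempty (Fin (n + 1)) := ⟨0⟩
    by_cases hj : ∃ j, i ≠ j
    · obtain ⟨j, hij⟩ := hj
      obtain ⟨a, ha, ha'⟩ := exists_irreducible_not_prime hF hmemF hd hij
      exact ha' (h1 a ha)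
    · push Not at hj
      apply not_X_dvd hF hmemF hd i
      have h6 := mem_span_X hFd hd0
      have h7 : (MvPolynomial.X '' (Set.univ : Set (Fin (n + 1))) :
          Set (MvPolynomial (Fin (n + 1)) k)) = {X i} := by
        ext z
        constructor
        · rintro ⟨j, -, rfl⟩
          rw [← hj j]
          rfl
        · rintro rfl
          exact ⟨i, Set.mem_univ i, rfl⟩
      rw [h7, Ideal.mem_span_singleton] at h6
      exact h6

end Pool.Agent.Helper511T
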