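import Pool.Agent.Helper511_AmpleT.Bundle
import Pool.Agent.Helper511_AmpleT.ConeP

set_option autoImplicit false
set_option linter.unusedSectionVars false

/-!
The quadric has the property `HasCone`.
-/

open MvPolynomial HomogeneousLocalization AlgebraicGeometry CategoryTheory TopologicalSpace

namespace Pool.Agent.Helper511T

attribute [local instance] MvPolynomial.gradedAlgebra

variable (k : Type) [Field k] [CharP k 2]

/-- evaluation at the point `(0, 0, 1, 0, 0)` -/
noncomputable def eps : S k →+* k :=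
  Ideal.Quotient.lift (I k) (aeval (![0, 0, 1, 0, 0] : Fin 5 → k) :
    MvPolynomial (Fin 5) k →ₐ[k] k).toRingHom (by
    intro a ha
    rw [I, Ideal.mem_span_singleton] at ha
    obtain ⟨b, rfl⟩ := ha
    change aeval (![0, 0, 1, 0, 0] : Fin 5 → k) (q k * b) = 0
    rw [map_mul]
    have : aeval (![0, 0, 1, 0, 0] : Fin 5 → k) (q k) = 0 := by
      simp [q]
    rw [this, zero_mul])

lemma eps_x (j : Fin 5) : eps k (x k j) = (![0, 0, 1, 0, 0] : Fin 5 → k) j := by
  change aeval (![0, 0, 1, 0, 0] : Fin 5 → k) (X j) = _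
  rw [aeval_X]

lemma x2_notMem_irr {P : HomogeneousIdeal (gr k)} (h : x k 2 ∉ P.toIdeal) :
    ¬ HomogeneousIdeal.irrelevant (gr k) ≤ P := by
  intro hle
  apply h
  have h1 : x k 2 ∈ HomogeneousIdeal.irrelevant (gr k) := by
    rw [HomogeneousIdeal.mem_irrelevant_iff]
    have : GradedRing.proj (gr k) 0 (x k 2) = (DirectSum.decompose (gr k) (x k 2) 0 : S k) := rfl
    rw [this, DirectSum.decompose_of_mem_ne (gr k) (x_mem k 2) (by norm_num)]
  exact hle h1

lemma exists_b : ∃ b : QQ k, b.asHomogeneousIdeal.toIdeal = Ideal.span {x k 1} := by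
  have h : (Ideal.span {x k 1}).IsHomogeneous (gr k) :=
    Ideal.homogeneous_span _ _ (by rintro _ rfl; exact ⟨1, x_mem k 1⟩)
  refine ⟨(⟨⟨Ideal.span {x k 1}, h⟩, ?_, ?_⟩ : ProjectiveSpectrum (gr k)), rfl⟩
  · change (Ideal.span {x k 1}).IsPrime
    rw [Ideal.span_singleton_prime (x_ne_zero k 1)]
    exact x1_prime k
  · apply x2_notMem_irr
    intro h2
    have h3 : x k 2 ∈ Ideal.span {x k 1} := h2
    rw [Ideal.mem_span_singleton] at h3
    obtain ⟨g, hg⟩ := h3
    have h4 := congrArg (eps k) hg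
    rw [map_mul, eps_x, eps_x] at h4
    have h5 : (1 : k) = 0 * eps k g := h4
    rw [zero_mul] at h5
    exact one_ne_zero h5

lemma exists_v : ∃ v : QQ k, (∀ j, j ≠ 2 → x k j ∈ v.asHomogeneousIdeal.toIdeal) ∧
    x k 2 ∉ v.asHomogeneousIdeal.toIdeal := by
  have hp : (RingHom.ker (eps k)).IsPrime := RingHom.ker_isPrime _
  have h2 : x k 2 ∉ ((RingHom.ker (eps k)).homogeneousCore (gr k)).toIdeal := by
    intro h
    have h3 := Ideal.toIdeal_homogeneousCore_le (gr k) _ h
    rw [RingHom.mem_ker, eps_x] at h3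
    have h5 : (1 : k) = 0 := h3
    exact one_ne_zero h5
  refine ⟨(⟨(RingHom.ker (eps k)).homogeneousCore (gr k), hp.homogeneousCore,
    x2_notMem_irr k h2⟩ : ProjectiveSpectrum (gr k)), ?_, h2⟩
  intro j hj
  apply Ideal.mem_homogeneousCore_of_homogeneous_of_mem ⟨1, x_mem k j⟩
  rw [RingHom.mem_ker, eps_x]
  fin_cases j
  · rfl
  · rfl
  · exact absurd rfl hj
  · rfl
  · rfl

/-- functions on the chart `x₁ ≠ 0` -/
lemma irreducible_prime (a : Γ(QQ k, Proj.basicOpen (gr k) (x k 1))) (ha : Irreducible a) :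
    Prime a := by
  let E : MvPolynomial (Fin 3) k ≃+* Γ(QQ k, Proj.basicOpen (gr k) (x k 1)) :=
    (chart1 k).equiv.trans
      (Proj.basicOpenIsoAway (gr k) (x k 1) (x_mem k 1) one_pos).commRingCatIsoToRingEquiv
  have h1 : Irreducible (E.symm a) := (MulEquiv.irreducible_iff E.symm).2 ha
  exact (MulEquiv.prime_iff E.symm).1 (UniqueFactorizationMonoid.irreducible_iff_prime.1 h1)

/-- There is no prime strictly between `0` and a principal prime. -/
lemma eq_or_eq_bot' {A : Type} [CommRing A] [IsDomain A] [IsNoetherianRing A] {t : A}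
    (ht : Prime t) {P : Ideal A} (hP : P.IsPrime) (h : P ≤ Ideal.span {t}) :
    P = Ideal.span {t} ∨ P = ⊥ := by
  by_cases h1 : t ∈ P
  · left
    apply le_antisymm h
    rw [Ideal.span_le, Set.singleton_subset_iff]
    exact h1
  · right
    have h2 : ∀ n : ℕ, P ≤ Ideal.span {t} ^ n := by
      intro n
      induction n with
      | zero => rw [pow_zero, Ideal.one_eq_top]; exact le_top
      | succ n ih =>
        intro f hf
        obtain ⟨g, rfl⟩ := Ideal.mem_span_singleton.1 (h hf)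
        have hg : g ∈ P := (hP.mem_or_mem hf).resolve_left h1
        rw [pow_succ']
        exact Ideal.mul_mem_mul (Ideal.mem_span_singleton_self _) (ih hg)
    have h3 : (Ideal.span {t} : Ideal A) ≠ ⊤ := by
      rw [Ne, Ideal.span_singleton_eq_top]
      exact ht.not_isUnit
    rw [eq_bot_iff, ← Ideal.iInf_pow_eq_bot_of_isDomain (Ideal.span {t}) h3]
    exact le_iInf h2

/-- `x_j / x_2` -/
noncomputable def cj (P : Ideal (S k)) [P.IsPrime] (h2 : x k 2 ∉ P) (j : Fin 5) :
    NumDenSameDeg (gr k) P.primeCompl where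
  deg := 1
  num := xx k j
  den := xx k 2
  den_mem := h2

lemma cj_mem {P : Ideal (S k)} [P.IsPrime] (h2 : x k 2 ∉ P) {j : Fin 5} (hj : x k j ∈ P) :
    HomogeneousLocalization.mk (cj k P h2 j) ∈
      IsLocalRing.maximalIdeal (HomogeneousLocalization.AtPrime (gr k) P) := by
  rw [IsLocalRing.mem_maximalIdeal, mem_nonunits_iff, isUnit_mk, not_not]
  exact hj

/-- a homogeneous multiple of `x₁` vanishes to second order at the vertex -/
lemma mem_sq_of_mul {P : Ideal (S k)} [P.IsPrime] (h2 : x k 2 ∉ P)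
    (h : ∀ j, j ≠ 2 → x k j ∈ P) (c : NumDenSameDeg (gr k) P.primeCompl)
    (hc : (c.num : S k) ∈ Ideal.span {x k 1}) :
    HomogeneousLocalization.mk c ∈
      IsLocalRing.maximalIdeal (HomogeneousLocalization.AtPrime (gr k) P) ^ 2 := by
  obtain ⟨m, ⟨a, ha⟩, ⟨s, hs⟩, hsP⟩ := c
  have hc' : a ∈ Ideal.span {x k 1} := hc
  obtain ⟨g, hg⟩ := Ideal.mem_span_singleton.1 hc'
  have hdec := DirectSum.decompose_of_mem_same (gr k) ha
  rcases m with _ | m
  · -- `a = 0`
    have h0 : a = 0 := by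
      rw [← hdec, hg]
      exact DirectSum.coe_decompose_mul_of_left_mem_of_not_le (gr k) (x_mem k 1) (by norm_num)
    have h3 : HomogeneousLocalization.mk (⟨0, ⟨a, ha⟩, ⟨s, hs⟩, hsP⟩ :
        NumDenSameDeg (gr k) P.primeCompl) = 0 := by
      change _ = HomogeneousLocalization.mk (0 : NumDenSameDeg (gr k) _)
      rw [mk_eq_mk (zero_notMem_primeCompl _)]
      simp [h0]
    rw [h3]
    exact zero_mem _
  · -- `a = x₁ g` with `g` homogeneous
    obtain ⟨g', hg'm, hg'⟩ : ∃ g' ∈ gr k m, a = x k 1 * g' := by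
      refine ⟨DirectSum.decompose (gr k) g m, SetLike.coe_mem _, ?_⟩
      rw [← hdec, hg]
      exact DirectSum.coe_decompose_mul_of_left_mem_of_le (gr k) (x_mem k 1) (by omega)
    let c' : NumDenSameDeg (gr k) P.primeCompl := ⟨1 + m, ⟨x k 2 * g',
      SetLike.mul_mem_graded (x_mem k 2) hg'm⟩, ⟨s, by rw [add_comm]; exact hs⟩, hsP⟩
    have h3 : HomogeneousLocalization.mk (⟨m + 1, ⟨a, ha⟩, ⟨s, hs⟩, hsP⟩ :
        NumDenSameDeg (gr k) P.primeCompl) =
        -(HomogeneousLocalization.mk (cj k P h2 0) * HomogeneousLocalization.mk (cj k P h2 0) +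
          HomogeneousLocalization.mk (cj k P h2 3) * HomogeneousLocalization.mk (cj k P h2 4)) *
          HomogeneousLocalization.mk c' := by
      change _ = HomogeneousLocalization.mk (-(cj k P h2 0 * cj k P h2 0 +
        cj k P h2 3 * cj k P h2 4) * c')
      rw [mk_eq_mk (zero_notMem_primeCompl _)]
      simp only [NumDenSameDeg.num_mul, NumDenSameDeg.den_mul, NumDenSameDeg.num_add,
        NumDenSameDeg.den_add, NumDenSameDeg.num_neg, NumDenSameDeg.den_neg, cj, xx, c']
      rw [hg']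
      linear_combination (x k 2 ^ 3 * g' * s) * x_rel k
    rw [h3]
    apply Ideal.mul_mem_right
    apply neg_mem
    rw [pow_two]
    apply add_mem
    · exact Ideal.mul_mem_mul (cj_mem k h2 (h 0 (by decide))) (cj_mem k h2 (h 0 (by decide)))
    · exact Ideal.mul_mem_mul (cj_mem k h2 (h 3 (by decide))) (cj_mem k h2 (h 4 (by decide)))

theorem hasCone_QQ : HasCone (QQ k) := by
  obtain ⟨b, hb⟩ := exists_b k
  obtain ⟨v, hv, hv2⟩ := exists_v k
  have hspec : ∀ z : QQ k, z ∉ Proj.basicOpen (gr k) (x k 1) ↔ b ⤳ z := by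
    intro z
    rw [specializes_iff, hb, Ideal.span_le, Set.singleton_subset_iff]
    change ¬ (¬ (x k 1 ∈ z.asHomogeneousIdeal.toIdeal)) ↔ _
    rw [not_not]
    rfl
  have hvU : v ∉ Proj.basicOpen (gr k) (x k 1) := fun h => h (hv 1 (by decide))
  refine ⟨Proj.basicOpen (gr k) (x k 1), b, v, ?_, irreducible_prime k, hspec, ?_, hvU, ?_⟩
  · obtain ⟨η, hη⟩ := exists_bot (𝒜 := gr k) (x_mem k 1) (x_ne_zero k 1)
    refine ⟨η, fun h => x_ne_zero k 1 ?_⟩
    have h1 : x k 1 ∈ η.asHomogeneousIdeal.toIdeal := h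
    rw [hη] at h1
    exact (Submodule.mem_bot (S k)).1 h1
  · intro z hz
    rw [specializes_iff, hb] at hz
    rcases eq_or_eq_bot' (x1_prime k) z.isPrime hz with h | h
    · left
      apply ProjectiveSpectrum.ext
      apply HomogeneousIdeal.ext
      exact h.trans hb.symm
    · right
      intro w
      rw [specializes_iff, h]
      exact bot_le
  · intro V hvV f hf
    rw [ev_mem_sq_iff]
    obtain ⟨W, hWV, hvW, m, a, s, hs, hfr⟩ := exists_fraction f v hvV
    have hbv : b ⤳ v := (hspec v).1 hvU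
    have hbW : b ∈ W := hbv.mem_open W.isOpen hvW
    rw [hfr v hvW hvV]
    apply mem_sq_of_mul k hv2 hv
    change (a : S k) ∈ Ideal.span {x k 1}
    have h1 : ¬ IsUnit (ev f b (hWV hbW)) := by
      intro hu
      exact hf ((mem_basicOpen_ev f b (hWV hbW)).2 hu)
    rw [hfr b hbW (hWV hbW), isUnit_mk, not_not] at h1
    rw [← hb]
    exact h1

end Pool.Agent.Helper511T
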