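import Pool.Agent.Helper511_AmpleT.Tangent

set_option autoImplicit false
set_option linter.unusedSectionVars false

/-!
Vector fields on `Proj` of a graded domain, given by derivations of degree zero.
-/

universe u

open CategoryTheory TopologicalSpace AlgebraicGeometry HomogeneousLocalization Opposite

namespace Pool.Agent.Helper511T

open Pool.Agent.W506 (ro ro_ro ro_refl rs)

section Der

variable {A : Type u} [CommRing A] [IsDomain A] {σ : Type*} [SetLike σ A] [AddSubgroupClass σ A]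
  (𝒜 : ℕ → σ) [GradedRing 𝒜]

/-- A derivation of degree zero of a graded ring. -/
structure Der0 where
  /-- the underlying function -/
  toFun : A → A
  map_add : ∀ a b, toFun (a + b) = toFun a + toFun b
  leibniz : ∀ a b, toFun (a * b) = a * toFun b + b * toFun a
  deg : ∀ m, ∀ a ∈ 𝒜 m, toFun a ∈ 𝒜 m

variable {𝒜}

lemma mk_eq_mk {M : Submonoid A} (h0 : (0 : A) ∉ M) (c d : NumDenSameDeg 𝒜 M) :
    HomogeneousLocalization.mk c = HomogeneousLocalization.mk d ↔
      (c.num : A) * d.den = d.num * c.den := by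
  rw [HomogeneousLocalization.ext_iff_val, HomogeneousLocalization.val_mk,
    HomogeneousLocalization.val_mk, Localization.mk_eq_mk_iff, Localization.r_iff_exists]
  constructor
  · rintro ⟨⟨r, hr⟩, h⟩
    have hr0 : r ≠ 0 := fun h1 => h0 (h1 ▸ hr)
    have := mul_left_cancel₀ hr0 h
    simp only at this
    linear_combination this
  · intro h
    refine ⟨1, ?_⟩
    simp only [OneMemClass.coe_one, one_mul]
    linear_combination h

namespace Der0

variable (E : Der0 𝒜)

/-- the derivative of a fraction -/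
def frac {M : Submonoid A} (c : NumDenSameDeg 𝒜 M) : NumDenSameDeg 𝒜 M where
  deg := c.deg + c.deg
  num := ⟨c.den * E.toFun c.num - c.num * E.toFun c.den,
    sub_mem (SetLike.mul_mem_graded c.den.2 (E.deg _ _ c.num.2))
      (SetLike.mul_mem_graded c.num.2 (E.deg _ _ c.den.2))⟩
  den := ⟨c.den * c.den, SetLike.mul_mem_graded c.den.2 c.den.2⟩
  den_mem := mul_mem c.den_mem c.den_mem

lemma cross {a b a' b' : A} (h : a * b' = a' * b) :
    (b * E.toFun a - a * E.toFun b) * (b' * b') =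
      (b' * E.toFun a' - a' * E.toFun b') * (b * b) := by
  have h1 := congrArg E.toFun h
  rw [E.leibniz, E.leibniz] at h1
  linear_combination (b * b') * h1 - (b' * E.toFun b + b * E.toFun b') * h

/-- the derivation on a homogeneous localization -/
def loc {M : Submonoid A} (h0 : (0 : A) ∉ M) (z : HomogeneousLocalization 𝒜 M) :
    HomogeneousLocalization 𝒜 M :=
  Quotient.map' E.frac (fun c d h => by
    have h1 : HomogeneousLocalization.mk c = HomogeneousLocalization.mk d := Quotient.sound' h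
    rw [mk_eq_mk h0] at h1
    have h2 : HomogeneousLocalization.mk (E.frac c) = HomogeneousLocalization.mk (E.frac d) := by
      rw [mk_eq_mk h0]
      exact E.cross h1
    exact Quotient.exact' h2) z

variable {M : Submonoid A} (h0 : (0 : A) ∉ M)

lemma loc_mk (c : NumDenSameDeg 𝒜 M) : E.loc h0 (HomogeneousLocalization.mk c) =
    HomogeneousLocalization.mk (E.frac c) := rfl

lemma loc_add (z w : HomogeneousLocalization 𝒜 M) : E.loc h0 (z + w) = E.loc h0 z + E.loc h0 w := by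
  obtain ⟨c, rfl⟩ := HomogeneousLocalization.mk_surjective z
  obtain ⟨d, rfl⟩ := HomogeneousLocalization.mk_surjective w
  change HomogeneousLocalization.mk (E.frac (c + d)) =
    HomogeneousLocalization.mk (E.frac c + E.frac d)
  rw [mk_eq_mk h0]
  simp only [NumDenSameDeg.num_add, NumDenSameDeg.den_add, frac, E.map_add, E.leibniz]
  ring

lemma loc_mul (z w : HomogeneousLocalization 𝒜 M) :
    E.loc h0 (z * w) = z * E.loc h0 w + w * E.loc h0 z := by
  obtain ⟨c, rfl⟩ := HomogeneousLocalization.mk_surjective z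
  obtain ⟨d, rfl⟩ := HomogeneousLocalization.mk_surjective w
  change HomogeneousLocalization.mk (E.frac (c * d)) =
    HomogeneousLocalization.mk (c * E.frac d + d * E.frac c)
  rw [mk_eq_mk h0]
  simp only [NumDenSameDeg.num_add, NumDenSameDeg.den_add, NumDenSameDeg.num_mul,
    NumDenSameDeg.den_mul, frac, E.leibniz]
  ring

end Der0

/-- the complement of a prime does not contain `0` -/
lemma zero_notMem_primeCompl (P : Ideal A) [P.IsPrime] : (0 : A) ∉ P.primeCompl :=
  fun h => h P.zero_mem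

end Der

section Sections

variable {A : Type u} [CommRing A] {σ : Type*} [SetLike σ A] [AddSubgroupClass σ A]
  {𝒜 : ℕ → σ} [GradedRing 𝒜]

instance isPrime_pt (x : Proj 𝒜) : x.asHomogeneousIdeal.toIdeal.IsPrime := x.isPrime

/-- the value of a function at a point -/
def ev {V : (Proj 𝒜).Opens} (s : Γ(Proj 𝒜, V)) (x : Proj 𝒜) (hx : x ∈ V) :
    HomogeneousLocalization.AtPrime 𝒜 x.asHomogeneousIdeal.toIdeal := s.1 ⟨x, hx⟩

lemma ev_add {V : (Proj 𝒜).Opens} (s t : Γ(Proj 𝒜, V)) (x : Proj 𝒜) (hx : x ∈ V) :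
    ev (s + t) x hx = ev s x hx + ev t x hx := rfl

lemma ev_mul {V : (Proj 𝒜).Opens} (s t : Γ(Proj 𝒜, V)) (x : Proj 𝒜) (hx : x ∈ V) :
    ev (s * t) x hx = ev s x hx * ev t x hx := rfl

lemma ev_one {V : (Proj 𝒜).Opens} (x : Proj 𝒜) (hx : x ∈ V) :
    ev (1 : Γ(Proj 𝒜, V)) x hx = 1 := rfl

lemma ev_zero {V : (Proj 𝒜).Opens} (x : Proj 𝒜) (hx : x ∈ V) :
    ev (0 : Γ(Proj 𝒜, V)) x hx = 0 := rfl

lemma ev_ro {V W : (Proj 𝒜).Opens} (h : W ≤ V) (s : Γ(Proj 𝒜, V)) (x : Proj 𝒜) (hx : x ∈ W) :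
    ev (ro h s) x hx = ev s x (h hx) := rfl

lemma ev_ext {V : (Proj 𝒜).Opens} {s t : Γ(Proj 𝒜, V)} (h : ∀ x hx, ev s x hx = ev t x hx) :
    s = t := Subtype.ext (funext fun x => h x.1 x.2)

/-- a function is locally a fraction -/
lemma exists_fraction {V : (Proj 𝒜).Opens} (s : Γ(Proj 𝒜, V)) (x : Proj 𝒜) (hx : x ∈ V) :
    ∃ (W : (Proj 𝒜).Opens) (_ : W ≤ V) (_ : x ∈ W) (m : ℕ) (a b : 𝒜 m)
      (hb : ∀ y : Proj 𝒜, y ∈ W → (b : A) ∈ y.asHomogeneousIdeal.toIdeal.primeCompl),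
      ∀ (y : Proj 𝒜) (hy : y ∈ W) (hy' : y ∈ V),
        ev s y hy' = HomogeneousLocalization.mk ⟨m, a, b, hb y hy⟩ := by
  obtain ⟨W, hxW, i, m, a, b, hb, h⟩ := s.2 ⟨x, hx⟩
  exact ⟨W, i.le, hxW, m, a, b, fun y hy => hb ⟨y, hy⟩, fun y hy hy' => h ⟨y, hy⟩⟩

/-- constructor for functions -/
def mkSec {V : (Proj 𝒜).Opens} (f : ∀ (x : Proj 𝒜), x ∈ V →
    HomogeneousLocalization.AtPrime 𝒜 x.asHomogeneousIdeal.toIdeal)
    (h : ∀ (x : Proj 𝒜), x ∈ V → ∃ (W : (Proj 𝒜).Opens) (hW : W ≤ V) (_ : x ∈ W) (m : ℕ)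
      (a b : 𝒜 m) (hb : ∀ y : Proj 𝒜, y ∈ W →
        (b : A) ∈ y.asHomogeneousIdeal.toIdeal.primeCompl),
      ∀ (y : Proj 𝒜) (hy : y ∈ W),
        f y (hW hy) = HomogeneousLocalization.mk ⟨m, a, b, hb y hy⟩) : Γ(Proj 𝒜, V) :=
  ⟨fun x => f x.1 x.2, fun x => by
    obtain ⟨W, hW, hxW, m, a, b, hb, h⟩ := h x.1 x.2
    exact ⟨W, hxW, homOfLE hW, m, a, b, fun y => hb y.1 y.2, fun y => h y.1 y.2⟩⟩

lemma ev_mkSec {V : (Proj 𝒜).Opens} (f : ∀ (x : Proj 𝒜), x ∈ V →
    HomogeneousLocalization.AtPrime 𝒜 x.asHomogeneousIdeal.toIdeal) (h) (x : Proj 𝒜) (hx : x ∈ V) :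
    ev (mkSec f h) x hx = f x hx := rfl

end Sections

section VF

variable {A : Type u} [CommRing A] [IsDomain A] {σ : Type*} [SetLike σ A] [AddSubgroupClass σ A]
  {𝒜 : ℕ → σ} [GradedRing 𝒜] (E : Der0 𝒜)

/-- The action of a derivation of degree zero on functions. -/
noncomputable def Der0.app (V : (Proj 𝒜).Opens) (s : Γ(Proj 𝒜, V)) : Γ(Proj 𝒜, V) :=
  mkSec (fun x hx => E.loc (zero_notMem_primeCompl _) (ev s x hx)) (fun x hx => by
    obtain ⟨W, hW, hxW, m, a, b, hb, h⟩ := exists_fraction s x hx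
    refine ⟨W, hW, hxW, m + m, ⟨b * E.toFun a - a * E.toFun b,
      sub_mem (SetLike.mul_mem_graded b.2 (E.deg _ _ a.2))
      (SetLike.mul_mem_graded a.2 (E.deg _ _ b.2))⟩,
      ⟨b * b, SetLike.mul_mem_graded b.2 b.2⟩, fun y hy => mul_mem (hb y hy) (hb y hy), fun y hy => ?_⟩
    rw [h y hy (hW hy)]
    rfl)

lemma Der0.ev_app (V : (Proj 𝒜).Opens) (s : Γ(Proj 𝒜, V)) (x : Proj 𝒜) (hx : x ∈ V) :
    ev (E.app V s) x hx = E.loc (zero_notMem_primeCompl _) (ev s x hx) := rfl

variable {k : Type u} [Field k] [IsAlgClosed k] [CharP k 2]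
  (π : Proj 𝒜 ⟶ Spec (CommRingCat.of k))

/-- The vector field of a derivation of degree zero, in characteristic `2`. -/
noncomputable def Der0.vf (U : (Proj 𝒜).Opens) : VF π U where
  app V _ s := E.app V s
  map_add' V _ a b := by
    apply ev_ext
    intro x hx
    rw [ev_add, ev_app, ev_app, ev_app, ev_add, loc_add]
  leibniz V _ a b := by
    apply ev_ext
    intro x hx
    rw [ev_add, ev_app, ev_mul, ev_mul, ev_mul, ev_app, ev_app, loc_mul]
  map_const V _ c := by
    obtain ⟨d, hd⟩ := IsAlgClosed.exists_pow_nat_eq c (n := 2) (by norm_num)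
    have h2 : (2 : Γ(Proj 𝒜, V)) = 0 := by
      have h3 : (2 : k) = 0 := by
        have := CharP.cast_eq_zero k 2
        exact_mod_cast this
      have h4 : const π V (2 : k) = 2 := map_ofNat _ 2
      rw [← h4, h3, map_zero]
    have h5 : E.app V (const π V c) = 2 * (const π V d * E.app V (const π V d)) := by
      rw [← hd, pow_two, map_mul]
      apply ev_ext
      intro x hx
      rw [two_mul, ev_add, ev_app, ev_mul, loc_mul, ev_mul, ev_app]
    rw [h5, h2, zero_mul]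
  res V _ W hW a := rfl

lemma Der0.vf_app (U V : (Proj 𝒜).Opens) (h : V ≤ U) (s : Γ(Proj 𝒜, V)) :
    (E.vf π U).app V h s = E.app V s := rfl

end VF

end Pool.Agent.Helper511T
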