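import Pool.Agent.Helper511_AmpleT.Smooth
import Pool.Agent.Helper511_AmpleT.ProjVF

set_option autoImplicit false
set_option linter.unusedSectionVars false

/-!
The derivation `∂/∂x₀` of the coordinate ring of the quadric.
-/

open MvPolynomial HomogeneousLocalization AlgebraicGeometry CategoryTheory

namespace Pool.Agent.Helper511T

attribute [local instance] MvPolynomial.gradedAlgebra

variable (k : Type) [Field k] [CharP k 2]

lemma pderiv_q : pderiv 0 (q k) = 0 := by
  rw [q]
  simp only [map_add, Derivation.leibniz, Derivation.leibniz_pow, pderiv_X_self,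
    pderiv_X_of_ne (show (1 : Fin 5) ≠ 0 by decide),
    pderiv_X_of_ne (show (2 : Fin 5) ≠ 0 by decide),
    pderiv_X_of_ne (show (3 : Fin 5) ≠ 0 by decide),
    pderiv_X_of_ne (show (4 : Fin 5) ≠ 0 by decide), smul_eq_mul, mul_one, mul_zero, zero_add,
      add_zero]
  rw [two_nsmul, ← two_mul, two_eq_zero_mv, zero_mul]

lemma pderiv_mem {f : MvPolynomial (Fin 5) k} (hf : f ∈ I k) : pderiv 0 f ∈ I k := by
  rw [I, Ideal.mem_span_singleton] at hf
  obtain ⟨g, rfl⟩ := hf
  rw [Derivation.leibniz, pderiv_q, smul_zero, add_zero, smul_eq_mul]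
  exact Ideal.mul_mem_right _ _ (Ideal.subset_span rfl)

/-- The derivation `∂/∂x₀`. -/
noncomputable def dS (s : S k) : S k :=
  Ideal.Quotient.mk (I k) (pderiv 0 (Function.surjInv (Ideal.Quotient.mk_surjective (I := I k)) s))

lemma dS_mk (f : MvPolynomial (Fin 5) k) :
    dS k (Ideal.Quotient.mk (I k) f) = Ideal.Quotient.mk (I k) (pderiv 0 f) := by
  rw [dS, Ideal.Quotient.eq, ← map_sub]
  apply pderiv_mem
  rw [← Ideal.Quotient.eq]
  exact Function.surjInv_eq _ _

lemma dS_add (a b : S k) : dS k (a + b) = dS k a + dS k b := by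
  obtain ⟨a, rfl⟩ := Ideal.Quotient.mk_surjective a
  obtain ⟨b, rfl⟩ := Ideal.Quotient.mk_surjective b
  rw [← map_add, dS_mk, dS_mk, dS_mk, map_add, map_add]

lemma dS_mul (a b : S k) : dS k (a * b) = a * dS k b + b * dS k a := by
  obtain ⟨a, rfl⟩ := Ideal.Quotient.mk_surjective a
  obtain ⟨b, rfl⟩ := Ideal.Quotient.mk_surjective b
  rw [← map_mul, dS_mk, dS_mk, dS_mk, Derivation.leibniz, map_add, smul_eq_mul, smul_eq_mul,
    map_mul, map_mul]

lemma dS_x0 : dS k (x k 0) = 1 := by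
  rw [x, dS_mk, pderiv_X_self, map_one]

lemma dS_x {j : Fin 5} (hj : j ≠ 0) : dS k (x k j) = 0 := by
  rw [x, dS_mk, pderiv_X_of_ne hj, map_zero]

lemma dS_zero {a : S k} (ha : a ∈ gr k 0) : dS k a = 0 := by
  obtain ⟨f, hf, rfl⟩ := exists_of_mem_gr k ha
  rw [← totalDegree_zero_iff_isHomogeneous, totalDegree_eq_zero_iff_eq_C] at hf
  rw [dS_mk, hf, pderiv_C, map_zero]

lemma dS_succ {m : ℕ} {a : S k} (ha : a ∈ gr k (m + 1)) : dS k a ∈ gr k m := by
  obtain ⟨f, hf, rfl⟩ := exists_of_mem_gr k ha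
  rw [dS_mk]
  exact mk_mem_gr k (hf.pderiv)

/-- The derivation `x_j ∂/∂x₀`. -/
noncomputable def xd (j : Fin 5) : Der0 (gr k) where
  toFun a := x k j * dS k a
  map_add a b := by rw [dS_add, mul_add]
  leibniz a b := by rw [dS_mul]; ring
  deg m a ha := by
    rcases m with _ | m
    · rw [dS_zero k ha, mul_zero]
      exact zero_mem _
    · rw [add_comm]
      exact SetLike.mul_mem_graded (x_mem k j) (dS_succ k ha)

end Pool.Agent.Helper511T
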