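import Pool.Agent.Helper413.Quad.Hom
import Pool.Agent.R924.E1
import Pool.Agent.H944R2.U.FinalDefs

set_option autoImplicit false
set_option linter.unusedSectionVars false

/-!
Functions on the complement of a hypersurface of degree at least two in `ℙⁿ`.
-/

open MvPolynomial HomogeneousLocalization AlgebraicGeometry CategoryTheory TopologicalSpace

namespace Pool.Agent.Helper511T

open Pool.Agent.R924 (DD fr exists_fr fr_eq_iff fr_mul fr_one fr_pow fr_zero fr_cast)

attribute [local instance] MvPolynomial.gradedAlgebra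

variable (k : Type) [Field k] (n : ℕ)

/-- the grading of the polynomial ring -/
noncomputable abbrev HS (k : Type) [Field k] (n : ℕ) :
    ℕ → Submodule k (MvPolynomial (Fin (n + 1)) k) := homogeneousSubmodule (Fin (n + 1)) k

variable {k n}

/-- a nonzero homogeneous prime ideal contains a homogeneous prime element -/
lemma exists_prime_mem {b : Ideal (MvPolynomial (Fin (n + 1)) k)} (hb : b.IsPrime)
    (hh : b.IsHomogeneous (HS k n)) (h0 : b ≠ ⊥) :
    ∃ (F : MvPolynomial (Fin (n + 1)) k) (d : ℕ), F ∈ b ∧ Prime F ∧ F.IsHomogeneous d := by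
  obtain ⟨g, hg, hg0⟩ := (Submodule.ne_bot_iff _).1 h0
  obtain ⟨i, hi⟩ : ∃ i, homogeneousComponent i g ≠ 0 := by
    by_contra hc
    push Not at hc
    apply hg0
    rw [← sum_homogeneousComponent g]
    exact Finset.sum_eq_zero fun i _ => hc i
  have hgi : homogeneousComponent i g ∈ b := by
    rw [← decomposition.decompose'_apply]
    exact hh i hg
  obtain ⟨f, hf, hfg⟩ := UniqueFactorizationMonoid.exists_prime_factors _ hi
  have hfb : f.prod ∈ b := by
    rw [(Ideal.mem_iff_of_associated hfg)]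
    exact hgi
  obtain ⟨F, hF, hFb⟩ := (hb.multiset_prod_mem_iff_exists_mem f).1 hfb
  obtain ⟨h, hh'⟩ := (Multiset.dvd_prod hF).trans hfg.dvd
  have hne : F * h ≠ 0 := by rw [← hh']; exact hi
  have hhom : (F * h).IsHomogeneous i := by
    rw [← hh']
    exact homogeneousComponent_isHomogeneous i g
  obtain ⟨d, _, hFd, _, _⟩ := Pool.Agent.Helper413.Quad.isHomogeneous_of_mul hne hhom
  exact ⟨F, d, hFb, hf F hF, hFd⟩

section Compl

lemma one_mem_zero_mul (d : ℕ) : (1 : MvPolynomial (Fin (n + 1)) k) ∈ HS k n (0 * d) := by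
  rw [zero_mul]
  exact isHomogeneous_one _ _

variable {F : MvPolynomial (Fin (n + 1)) k} {d : ℕ} (hF : Prime F) (hd : F ∈ HS k n d)

include hF in
lemma exists_min (hd0 : 0 < d) : ∀ (m : ℕ) (a : MvPolynomial (Fin (n + 1)) k)
    (ha : a ∈ HS k n (m * d)), ∃ (m' : ℕ) (a' : MvPolynomial (Fin (n + 1)) k)
      (ha' : a' ∈ HS k n (m' * d)), fr hd m a ha = fr hd m' a' ha' ∧ (m' = 0 ∨ ¬ F ∣ a') := by
  intro m
  induction m with
  | zero => exact fun a ha => ⟨0, a, ha, rfl, Or.inl rfl⟩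
  | succ m ih =>
    intro a ha
    by_cases h : F ∣ a
    · obtain ⟨b, rfl⟩ := h
      have hb : b ∈ HS k n (m * d) := by
        by_cases hb0 : b = 0
        · rw [hb0]
          exact zero_mem _
        obtain ⟨u, v, hu, hv, huv⟩ := Pool.Agent.Helper413.Quad.isHomogeneous_of_mul
          (mul_ne_zero hF.ne_zero hb0) ha
        have h1 : u = d := hu.inj_right hd hF.ne_zero
        have h2 : v = m * d := by
          rw [h1, add_mul, one_mul] at huv
          omega
        rw [h2] at hv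
        exact hv
      obtain ⟨m', a', ha', h1, h2⟩ := ih b hb
      refine ⟨m', a', ha', ?_, h2⟩
      rw [← h1, fr_eq_iff hd hd0 hF.ne_zero]
      ring
    · exact ⟨m + 1, a, ha, rfl, Or.inr h⟩

lemma mem_zero_mul {a : MvPolynomial (Fin (n + 1)) k} (ha : a ∈ HS k n (0 * d)) :
    ∃ c : k, a = C c := by
  rw [zero_mul] at ha
  have h1 : a.totalDegree = 0 := (totalDegree_zero_iff_isHomogeneous _).2 ha
  exact ⟨_, totalDegree_eq_zero_iff_eq_C.1 h1⟩

lemma C_mem_zero_mul (c : k) : (C c : MvPolynomial (Fin (n + 1)) k) ∈ HS k n (0 * d) := by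
  rw [zero_mul]
  exact isHomogeneous_C _ c

include hF in
lemma fr_zero_unit (hd0 : 0 < d) {a : MvPolynomial (Fin (n + 1)) k} (ha : a ∈ HS k n (0 * d))
    (h0 : a ≠ 0) : IsUnit (fr hd 0 a ha) := by
  obtain ⟨c, rfl⟩ := mem_zero_mul ha
  have hc : c ≠ 0 := by
    rintro rfl
    exact h0 C_0
  refine isUnit_iff_exists_inv.2 ⟨fr hd 0 (C c⁻¹) (C_mem_zero_mul _), ?_⟩
  rw [fr_mul, ← fr_one hd (one_mem_zero_mul d),
    fr_eq_iff hd hd0 hF.ne_zero]
  rw [← C_mul, mul_inv_cancel₀ hc, C_1]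

lemma X_prime' (i : Fin (n + 1)) : Prime (X i : MvPolynomial (Fin (n + 1)) k) :=
  MvPolynomial.X_prime

include hF hd in
lemma not_dvd_X (hd2 : 2 ≤ d) (i : Fin (n + 1)) : ¬ F ∣ X i := by
  rintro ⟨g, hg⟩
  have hg0 : g ≠ 0 := by
    rintro rfl
    rw [mul_zero] at hg
    exact X_ne_zero i hg
  have h1 := congrArg totalDegree hg
  rw [totalDegree_mul_of_isDomain hF.ne_zero hg0, totalDegree_X,
    (show F.IsHomogeneous d from hd).totalDegree hF.ne_zero] at h1
  omega

include hF hd in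
lemma not_X_dvd (hd2 : 2 ≤ d) (i : Fin (n + 1)) : ¬ X i ∣ F := by
  rintro ⟨g, hg⟩
  have h1 : IsUnit g :=
    (hF.irreducible.isUnit_or_isUnit hg).resolve_left (X_prime' i).not_isUnit
  obtain ⟨c, hc⟩ := h1.exists_right_inv
  apply not_dvd_X hF hd hd2 i
  refine ⟨c, ?_⟩
  rw [hg, mul_assoc, hc, mul_one]

lemma X_not_dvd_X {i j : Fin (n + 1)} (h : i ≠ j) :
    ¬ (X i : MvPolynomial (Fin (n + 1)) k) ∣ X j := by
  rw [MvPolynomial.X_dvd_X]
  exact h

include hF hd in
/-- On the complement of a hypersurface of degree at least two not all irreducible functions are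
prime. -/
theorem exists_irreducible_not_prime (hd2 : 2 ≤ d) {i j : Fin (n + 1)} (hij : i ≠ j) :
    ∃ a : Γ(Proj (HS k n), DD (HS k n) F), Irreducible a ∧ ¬ Prime a := by
  have hd0 : 0 < d := by omega
  have hXd : ∀ l : Fin (n + 1), (X l : MvPolynomial (Fin (n + 1)) k) ^ d ∈ HS k n (1 * d) := by
    intro l
    rw [one_mul]
    exact isHomogeneous_X_pow l d
  have hb : (X i : MvPolynomial (Fin (n + 1)) k) ^ (d - 1) * X j ∈ HS k n (1 * d) := by
    have h1 : ((X i : MvPolynomial (Fin (n + 1)) k) ^ (d - 1) * X j).IsHomogeneous (d - 1 + 1) :=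
      (isHomogeneous_X_pow i (d - 1)).mul (isHomogeneous_X k j)
    rw [one_mul]
    have h2 : d - 1 + 1 = d := by omega
    rw [h2] at h1
    exact h1
  have hF0 := hF.ne_zero
  have hX0 : (X i : MvPolynomial (Fin (n + 1)) k) ≠ 0 := X_ne_zero i
  let a : Γ(Proj (HS k n), DD (HS k n) F) := fr hd 1 (X i ^ d) (hXd i)
  refine ⟨a, ⟨?_, ?_⟩, ?_⟩
  · -- not a unit
    intro hu
    obtain ⟨w, hw⟩ := hu.exists_right_inv
    obtain ⟨m, h, hh, rfl⟩ := exists_fr hd hd0 w
    rw [fr_mul, ← fr_one hd (one_mem_zero_mul d), fr_eq_iff hd hd0 hF0] at hw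
    have h1 : (X i : MvPolynomial (Fin (n + 1)) k) ∣ F ^ (1 + m) := by
      refine ⟨X i ^ (d - 1) * h, ?_⟩
      have h2 : (X i : MvPolynomial (Fin (n + 1)) k) ^ d = X i * X i ^ (d - 1) := by
        rw [← pow_succ']
        congr 1
        omega
      rw [h2, pow_zero, one_mul, mul_one] at hw
      rw [← hw, mul_assoc]
    exact not_X_dvd hF hd hd2 i ((X_prime' i).dvd_of_dvd_pow h1)
  · -- irreducible
    intro w1 w2 hw
    obtain ⟨m1', h1', hh1', rfl⟩ := exists_fr hd hd0 w1
    obtain ⟨m2', h2', hh2', rfl⟩ := exists_fr hd hd0 w2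
    obtain ⟨m1, h1, hh1, e1, hmin1⟩ := exists_min hF hd hd0 m1' h1' hh1'
    obtain ⟨m2, h2, hh2, e2, hmin2⟩ := exists_min hF hd hd0 m2' h2' hh2'
    rw [e1, e2] at hw ⊢
    have hw' : fr hd 1 (X i ^ d) (hXd i) = fr hd m1 h1 hh1 * fr hd m2 h2 hh2 := hw
    rw [fr_mul, fr_eq_iff hd hd0 hF0, pow_one] at hw'
    have hne : h1 * h2 ≠ 0 := by
      intro h0
      rw [h0, mul_zero] at hw'
      exact mul_ne_zero (pow_ne_zero _ hF0) (pow_ne_zero _ hX0) hw'
    have hz : ∀ (m : ℕ) (h : MvPolynomial (Fin (n + 1)) k) (_ : h ∈ HS k n (m * d)), h ≠ 0 →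
        (m = 0 ∨ ¬ F ∣ h) → ¬ F ∣ h := by
      intro m h hh h0 hm
      rcases hm with rfl | hm
      · obtain ⟨c, rfl⟩ := mem_zero_mul hh
        intro hdvd
        have hc : c ≠ 0 := by
          rintro rfl
          exact h0 C_0
        exact hF.not_isUnit (isUnit_of_dvd_unit hdvd ((isUnit_iff_ne_zero.2 hc).map C))
      · exact hm
    have n1 := hz m1 h1 hh1 (left_ne_zero_of_mul hne) hmin1
    have n2 := hz m2 h2 hh2 (right_ne_zero_of_mul hne) hmin2
    have hm : m1 + m2 ≤ 1 := by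
      by_contra hcon
      have h3 : F ∣ h1 * h2 := by
        refine ⟨F ^ (m1 + m2 - 2) * X i ^ d, ?_⟩
        apply mul_left_cancel₀ hF0
        rw [← hw']
        have : F ^ (m1 + m2) = F * (F * F ^ (m1 + m2 - 2)) := by
          rw [← pow_succ', ← pow_succ']
          congr 1
          omega
        rw [this]
        ring
      rcases hF.dvd_or_dvd h3 with h4 | h4
      · exact n1 h4
      · exact n2 h4
    have hm' : m1 = 0 ∨ m2 = 0 := by omega
    rcases hm' with rfl | rfl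
    · exact Or.inl (fr_zero_unit hF hd hd0 hh1 (left_ne_zero_of_mul hne))
    · exact Or.inr (fr_zero_unit hF hd hd0 hh2 (right_ne_zero_of_mul hne))
  · -- not prime
    intro hp
    have h1 : a ∣ fr hd 1 _ hb ^ d := by
      refine ⟨fr hd 1 (X i ^ d) (hXd i) ^ (d - 2) * fr hd 1 (X j ^ d) (hXd j), ?_⟩
      have e1 := fr_pow hd (X i ^ (d - 1) * X j) (by simpa using hb) d
      have e2 := fr_pow hd (X i ^ d) (by simpa using hXd i) (d - 2)
      change fr hd 1 _ hb ^ d = _ at e1
      change fr hd 1 _ (hXd i) ^ (d - 2) = _ at e2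
      rw [e1, e2, fr_mul, fr_mul, fr_eq_iff hd hd0 hF0]
      have e3 : 1 + (d - 2 + 1) = d := by omega
      rw [e3]
      congr 1
      rw [mul_pow, ← pow_mul, ← pow_mul, ← mul_assoc, ← pow_add]
      congr 2
      obtain ⟨e, rfl⟩ := Nat.exists_eq_add_of_le hd2
      have : 2 + e - 2 = e := by omega
      rw [this]
      have : 2 + e - 1 = e + 1 := by omega
      rw [this]
      ring
    obtain ⟨w, hw⟩ := hp.dvd_of_dvd_pow h1
    obtain ⟨m, h, hh, rfl⟩ := exists_fr hd hd0 w
    have hw' : fr hd 1 _ hb = fr hd 1 (X i ^ d) (hXd i) * fr hd m h hh := hw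
    rw [fr_mul, fr_eq_iff hd hd0 hF0, pow_one] at hw'
    have h2 : (X i : MvPolynomial (Fin (n + 1)) k) ∣ F ^ m * X j := by
      refine ⟨h, ?_⟩
      have h3 : F * X i ^ (d - 1) ≠ 0 := mul_ne_zero hF0 (pow_ne_zero _ hX0)
      apply mul_left_cancel₀ h3
      have h4 : (X i : MvPolynomial (Fin (n + 1)) k) ^ d = X i ^ (d - 1) * X i := by
        rw [← pow_succ]
        congr 1
        omega
      rw [h4, pow_add, pow_one] at hw'
      linear_combination hw'
    rcases (X_prime' i).dvd_or_dvd h2 with h3 | h3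
    · exact not_X_dvd hF hd hd2 i ((X_prime' i).dvd_of_dvd_pow h3)
    · exact X_not_dvd_X hij h3

end Compl

end Pool.Agent.Helper511T
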