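import Mathlib

set_option autoImplicit false

/-!
The grading of a quotient by a homogeneous ideal (copied from
`Pool/Agent/Results/MP_429122_al/GradedCore.lean`).
-/

universe u v

open DirectSum

namespace Pool.Agent.Helper511T

namespace QG

section QuotientGrading

variable {k : Type u} {S : Type v} [Field k] [CommRing S] [Algebra k S]
  (𝒮 : ℕ → Submodule k S) [GradedAlgebra 𝒮] (I : Ideal S)

/-- The image of a grading in a quotient ring. -/
def quotGrading : ℕ → Submodule k (S ⧸ I) :=
  fun i => (𝒮 i).map (Ideal.Quotient.mkₐ k I).toLinearMap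

omit [GradedAlgebra 𝒮] in
theorem mk_mem {i : ℕ} {s : S} (hs : s ∈ 𝒮 i) : Ideal.Quotient.mk I s ∈ quotGrading 𝒮 I i :=
  ⟨s, hs, rfl⟩

instance gradedMonoid : SetLike.GradedMonoid (quotGrading 𝒮 I) where
  one_mem := ⟨1, SetLike.GradedOne.one_mem, map_one (Ideal.Quotient.mk I)⟩
  mul_mem := by
    rintro i j _ _ ⟨a, ha, rfl⟩ ⟨b, hb, rfl⟩
    exact ⟨a * b, SetLike.GradedMul.mul_mem ha hb, map_mul (Ideal.Quotient.mk I) a b⟩

variable {I}

theorem isInternal (hI : I.IsHomogeneous 𝒮) : DirectSum.IsInternal (quotGrading 𝒮 I) := by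
  classical
  constructor
  · -- injectivity
    rw [injective_iff_map_eq_zero]
    intro x hx
    have hch : ∀ i : ℕ, ∃ s : S, s ∈ 𝒮 i ∧ Ideal.Quotient.mk I s = (x i : S ⧸ I) := by
      intro i
      obtain ⟨s, hs, h⟩ := (x i).2
      exact ⟨s, hs, h⟩
    choose s hs hsx using hch
    have h1 : DirectSum.coeAddMonoidHom (quotGrading 𝒮 I) x = ∑ i ∈ x.support, (x i : S ⧸ I) :=
      DirectSum.coeAddMonoidHom_eq_dfinsuppSum _ x
    rw [h1] at hx
    have h2 : Ideal.Quotient.mk I (∑ i ∈ x.support, s i) = 0 := by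
      rw [map_sum, ← hx]
      exact Finset.sum_congr rfl fun i _ => hsx i
    rw [Ideal.Quotient.eq_zero_iff_mem] at h2
    ext i
    by_cases hi : i ∈ x.support
    · have h3 := hI i h2
      have h4 : (DirectSum.decompose 𝒮 (∑ i ∈ x.support, s i) i : S) = s i := by
        rw [DirectSum.decompose_sum, DFinsupp.finsetSum_apply]
        rw [Submodule.coe_sum, Finset.sum_eq_single i]
        · exact DirectSum.decompose_of_mem_same 𝒮 (hs i)
        · intro j _ hj
          exact DirectSum.decompose_of_mem_ne 𝒮 (hs j) hj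
        · intro h; exact absurd hi h
      rw [h4] at h3
      rw [← hsx i, Ideal.Quotient.eq_zero_iff_mem.mpr h3]
      rfl
    · rw [DFinsupp.notMem_support_iff.mp hi]
      rfl
  · -- surjectivity
    intro y
    obtain ⟨s, rfl⟩ := Ideal.Quotient.mk_surjective y
    rw [← DirectSum.sum_support_decompose 𝒮 s, map_sum]
    refine ⟨∑ i ∈ (DirectSum.decompose 𝒮 s).support,
      DirectSum.of (fun i => quotGrading 𝒮 I i) i
        ⟨Ideal.Quotient.mk I (DirectSum.decompose 𝒮 s i), mk_mem 𝒮 I (DirectSum.decompose 𝒮 s i).2⟩, ?_⟩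
    rw [map_sum]
    exact Finset.sum_congr rfl fun i _ => DirectSum.coeAddMonoidHom_of _ _ _

/-- The quotient of a graded algebra by a homogeneous ideal is graded. -/
@[instance_reducible] noncomputable def gradedAlgebra (hI : I.IsHomogeneous 𝒮) : GradedAlgebra (quotGrading 𝒮 I) :=
  { gradedMonoid 𝒮 I, (isInternal 𝒮 hI).chooseDecomposition with }

theorem decompose_mk (hI : I.IsHomogeneous 𝒮) (s : S) (i : ℕ) :
    letI := gradedAlgebra 𝒮 hI
    (DirectSum.decompose (quotGrading 𝒮 I) (Ideal.Quotient.mk I s) i : S ⧸ I) =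
      Ideal.Quotient.mk I (DirectSum.decompose 𝒮 s i) := by
  classical
  let _ := gradedAlgebra 𝒮 hI
  have h := DirectSum.sum_support_decompose 𝒮 s
  conv_lhs => rw [← h]
  rw [map_sum, DirectSum.decompose_sum, DFinsupp.finsetSum_apply, Submodule.coe_sum]
  by_cases hi : i ∈ (DirectSum.decompose 𝒮 s).support
  · rw [Finset.sum_eq_single i]
    · exact DirectSum.decompose_of_mem_same _ (mk_mem 𝒮 I (DirectSum.decompose 𝒮 s i).2)
    · intro j _ hj
      exact DirectSum.decompose_of_mem_ne _ (mk_mem 𝒮 I (DirectSum.decompose 𝒮 s j).2) hj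
    · intro h; exact absurd hi h
  · rw [DFinsupp.notMem_support_iff.mp hi, ZeroMemClass.coe_zero, map_zero]
    apply Finset.sum_eq_zero
    intro j hj
    have hji : j ≠ i := fun h => hi (h ▸ hj)
    exact DirectSum.decompose_of_mem_ne _ (mk_mem 𝒮 I (DirectSum.decompose 𝒮 s j).2) hji

end QuotientGrading


end QG

export QG (quotGrading)

end Pool.Agent.Helper511T
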