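import Pool.Agent.Helper511_AmpleT.QG

set_option autoImplicit false
set_option linter.unusedSectionVars false

/-!
The coordinate ring of the quadric `x₀² + x₁x₂ + x₃x₄ = 0` in characteristic `2`.
-/

open MvPolynomial

namespace Pool.Agent.Helper511T

section Prime

/-- `X² + f` is prime if `-f` is not a square. -/
lemma prime_sq_add {D : Type*} [CommRing D] [IsDomain D] [UniqueFactorizationMonoid D] (f : D)
    (hf : ∀ r : D, r ^ 2 + f ≠ 0) : Prime (Polynomial.X ^ 2 + Polynomial.C f : Polynomial D) := by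
  have hm : (Polynomial.X ^ 2 + Polynomial.C f : Polynomial D).Monic :=
    Polynomial.monic_X_pow_add_C f two_ne_zero
  have hd : (Polynomial.X ^ 2 + Polynomial.C f : Polynomial D).natDegree = 2 :=
    Polynomial.natDegree_X_pow_add_C
  have hirr : Irreducible (Polynomial.X ^ 2 + Polynomial.C f : Polynomial D) := by
    rw [hm.irreducible_iff_roots_eq_zero_of_degree_le_three (by rw [hd]) (by rw [hd]; norm_num)]
    rw [Multiset.eq_zero_iff_forall_notMem]
    intro r hr
    rw [Polynomial.mem_roots hm.ne_zero, Polynomial.IsRoot.def] at hr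
    simp only [Polynomial.eval_add, Polynomial.eval_pow, Polynomial.eval_X,
      Polynomial.eval_C] at hr
    exact hf r hr
  exact UniqueFactorizationMonoid.irreducible_iff_prime.1 hirr

variable (k : Type) [Field k] [CharP k 2]

lemma two_eq_zero' : (2 : k) = 0 := by
  have := CharP.cast_eq_zero k 2
  exact_mod_cast this

lemma two_eq_zero_mv (σ : Type) : (2 : MvPolynomial σ k) = 0 := by
  have : (2 : MvPolynomial σ k) = C (2 : k) := (map_ofNat C 2).symm
  rw [this, two_eq_zero', C_0]

/-- the quadratic form -/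
noncomputable def q (k : Type) [Field k] : MvPolynomial (Fin 5) k :=
  X 0 ^ 2 + X 1 * X 2 + X 3 * X 4

lemma q_prime : Prime (q k) := by
  have h1 : Prime (Polynomial.X ^ 2 + Polynomial.C (X 0 * X 1 + X 2 * X 3) :
      Polynomial (MvPolynomial (Fin 4) k)) := by
    apply prime_sq_add
    intro r hr
    have h2 := congrArg (pderiv (0 : Fin 4)) hr
    simp only [map_add, Derivation.leibniz, Derivation.leibniz_pow, pderiv_X_self, map_zero,
      pderiv_X_of_ne (show (1 : Fin 4) ≠ 0 by decide),
      pderiv_X_of_ne (show (2 : Fin 4) ≠ 0 by decide),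
      pderiv_X_of_ne (show (3 : Fin 4) ≠ 0 by decide), smul_eq_mul, mul_one, mul_zero, zero_add,
      add_zero] at h2
    rw [two_nsmul, ← two_mul, two_eq_zero_mv, zero_mul, zero_add] at h2
    exact X_ne_zero _ h2
  have h3 : (finSuccEquiv k 4) (q k) =
      Polynomial.X ^ 2 + Polynomial.C (X 0 * X 1 + X 2 * X 3) := by
    rw [q]
    have e1 : (1 : Fin 5) = Fin.succ 0 := rfl
    have e2 : (2 : Fin 5) = Fin.succ 1 := rfl
    have e3 : (3 : Fin 5) = Fin.succ 2 := rfl
    have e4 : (4 : Fin 5) = Fin.succ 3 := rfl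
    rw [e1, e2, e3, e4]
    simp only [map_add, map_mul, map_pow, finSuccEquiv_X_zero, finSuccEquiv_X_succ]
    ring
  rw [← h3] at h1
  exact (MulEquiv.prime_iff (finSuccEquiv k 4)).1 h1

/-- The ideal of the quadric. -/
noncomputable def I (k : Type) [Field k] : Ideal (MvPolynomial (Fin 5) k) := Ideal.span {q k}

instance I_prime : (I k).IsPrime := by
  rw [I, Ideal.span_singleton_prime (q_prime k).ne_zero]
  exact q_prime k

/-- The map which sets `x₁ = 0`. -/
noncomputable def chi (k : Type) [Field k] :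
    MvPolynomial (Fin 5) k →+* Polynomial (MvPolynomial (Fin 3) k) :=
  (Polynomial.mapRingHom ((Polynomial.evalRingHom (0 : MvPolynomial (Fin 3) k)).comp
    (finSuccEquiv k 3 : MvPolynomial (Fin 4) k →+* _))).comp
    (finSuccEquiv k 4 : MvPolynomial (Fin 5) k →+* _)

lemma fse1 : finSuccEquiv k 4 (X 1) = Polynomial.C (X 0) := finSuccEquiv_X_succ (j := (0 : Fin 4))
lemma fse2 : finSuccEquiv k 4 (X 2) = Polynomial.C (X 1) := finSuccEquiv_X_succ (j := (1 : Fin 4))
lemma fse3 : finSuccEquiv k 4 (X 3) = Polynomial.C (X 2) := finSuccEquiv_X_succ (j := (2 : Fin 4))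
lemma fse4 : finSuccEquiv k 4 (X 4) = Polynomial.C (X 3) := finSuccEquiv_X_succ (j := (3 : Fin 4))
lemma gse1 : finSuccEquiv k 3 (X 1) = Polynomial.C (X 0) := finSuccEquiv_X_succ (j := (0 : Fin 3))
lemma gse2 : finSuccEquiv k 3 (X 2) = Polynomial.C (X 1) := finSuccEquiv_X_succ (j := (1 : Fin 3))
lemma gse3 : finSuccEquiv k 3 (X 3) = Polynomial.C (X 2) := finSuccEquiv_X_succ (j := (2 : Fin 3))

lemma chi_surjective : Function.Surjective (chi k) := by
  apply Function.Surjective.comp (Polynomial.map_surjective _ ?_) (finSuccEquiv k 4).surjective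
  intro a
  refine ⟨(finSuccEquiv k 3).symm (Polynomial.C a), ?_⟩
  rw [RingHom.comp_apply]
  change Polynomial.evalRingHom 0 (finSuccEquiv k 3 ((finSuccEquiv k 3).symm (Polynomial.C a))) = a
  rw [AlgEquiv.apply_symm_apply]
  exact Polynomial.eval_C

lemma chi_ker (f : MvPolynomial (Fin 5) k) (hf : chi k f = 0) :
    f ∈ Ideal.span {(X 1 : MvPolynomial (Fin 5) k)} := by
  have h1 : finSuccEquiv k 4 f ∈ RingHom.ker
      (Polynomial.mapRingHom ((Polynomial.evalRingHom (0 : MvPolynomial (Fin 3) k)).comp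
      (finSuccEquiv k 3 : MvPolynomial (Fin 4) k →+* _))) := hf
  rw [Polynomial.ker_mapRingHom] at h1
  have h2 : RingHom.ker ((Polynomial.evalRingHom (0 : MvPolynomial (Fin 3) k)).comp
      (finSuccEquiv k 3 : MvPolynomial (Fin 4) k →+* _)) ≤ Ideal.span {X 0} := by
    intro g hg
    have h3 : Polynomial.eval 0 (finSuccEquiv k 3 g) = 0 := hg
    rw [← Polynomial.coeff_zero_eq_eval_zero, ← Polynomial.X_dvd_iff] at h3
    obtain ⟨h, hh⟩ := h3
    rw [Ideal.mem_span_singleton]
    refine ⟨(finSuccEquiv k 3).symm h, ?_⟩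
    apply (finSuccEquiv k 3).injective
    rw [hh, map_mul, finSuccEquiv_X_zero, AlgEquiv.apply_symm_apply]
  have h4 := Ideal.map_mono (f := Polynomial.C) h2 h1
  rw [Ideal.map_span, Set.image_singleton, Ideal.mem_span_singleton] at h4
  obtain ⟨h, hh⟩ := h4
  rw [Ideal.mem_span_singleton]
  refine ⟨(finSuccEquiv k 4).symm h, ?_⟩
  apply (finSuccEquiv k 4).injective
  rw [hh, map_mul, AlgEquiv.apply_symm_apply, fse1]

lemma chi_q : chi k (q k) = Polynomial.X ^ 2 + Polynomial.C (X 1 * X 2) := by
  have c1 : chi k (X 0) = Polynomial.X := by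
    simp [chi, finSuccEquiv_X_zero]
  have c2 : chi k (X 1) = 0 := by
    simp [chi, fse1, finSuccEquiv_X_zero]
  have c3 : chi k (X 3) = Polynomial.C (X 1) := by
    simp [chi, fse3, gse2]
  have c4 : chi k (X 4) = Polynomial.C (X 2) := by
    simp [chi, fse4, gse3]
  rw [q, map_add, map_add, map_pow, map_mul, map_mul, c1, c2, c3, c4, zero_mul, add_zero,
    Polynomial.C_mul]

lemma chi_x1 : chi k (X 1) = 0 := by
  simp [chi, fse1, finSuccEquiv_X_zero]

lemma chi_prime : Prime (chi k (q k)) := by
  rw [chi_q]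
  apply prime_sq_add
  intro r hr
  have h2 := congrArg (pderiv (1 : Fin 3)) hr
  simp only [map_add, Derivation.leibniz, Derivation.leibniz_pow, pderiv_X_self, map_zero,
    pderiv_X_of_ne (show (2 : Fin 3) ≠ 1 by decide), smul_eq_mul, mul_one, mul_zero,
    zero_add] at h2
  rw [two_nsmul, ← two_mul, two_eq_zero_mv, zero_mul, zero_add] at h2
  exact X_ne_zero _ h2

/-- the hyperplane section `x₁ = 0` is integral -/
lemma comap_chi : (Ideal.span {chi k (q k)}).comap (chi k) = Ideal.span {q k, X 1} := by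
  apply le_antisymm
  · intro f hf
    rw [Ideal.mem_comap, Ideal.mem_span_singleton] at hf
    obtain ⟨g, hg⟩ := hf
    obtain ⟨g, rfl⟩ := chi_surjective k g
    have h1 : f - q k * g ∈ Ideal.span {(X 1 : MvPolynomial (Fin 5) k)} := by
      apply chi_ker
      rw [map_sub, map_mul, hg, sub_self]
    have h2 : f = (f - q k * g) + q k * g := by ring
    rw [h2]
    apply add_mem
    · exact Ideal.span_mono (by simp) h1
    · exact Ideal.mul_mem_right _ _ (Ideal.subset_span (by simp))
  · rw [Ideal.span_le]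
    rintro f (rfl | rfl)
    · exact Ideal.subset_span rfl
    · change chi k (X 1) ∈ Ideal.span {chi k (q k)}
      rw [chi_x1]
      exact zero_mem _

lemma span_q_x1_prime : (Ideal.span {q k, X 1} : Ideal (MvPolynomial (Fin 5) k)).IsPrime := by
  rw [← comap_chi]
  have : (Ideal.span {chi k (q k)}).IsPrime := by
    rw [Ideal.span_singleton_prime (chi_prime k).ne_zero]
    exact chi_prime k
  exact Ideal.comap_isPrime _ _

end Prime

/-- The coordinate ring of the quadric. -/
abbrev S (k : Type) [Field k] : Type := MvPolynomial (Fin 5) k ⧸ I k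

section Ring

attribute [local instance] MvPolynomial.gradedAlgebra

variable (k : Type) [Field k]

lemma q_mem : q k ∈ homogeneousSubmodule (Fin 5) k 2 := by
  rw [mem_homogeneousSubmodule, q]
  have h := fun i => isHomogeneous_X k (i : Fin 5)
  exact (((h 0).pow 2).add ((h 1).mul (h 2))).add ((h 3).mul (h 4))

lemma I_homogeneous : (I k).IsHomogeneous (homogeneousSubmodule (Fin 5) k) := by
  apply Ideal.homogeneous_span
  rintro _ rfl
  exact ⟨2, q_mem k⟩

/-- The grading of the coordinate ring of the quadric. -/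
noncomputable def gr (k : Type) [Field k] : ℕ → Submodule k (S k) :=
  quotGrading (homogeneousSubmodule (Fin 5) k) (I k)

noncomputable instance : GradedAlgebra (gr k) :=
  QG.gradedAlgebra (homogeneousSubmodule (Fin 5) k) (I_homogeneous k)

/-- The coordinates. -/
noncomputable def x (k : Type) [Field k] (j : Fin 5) : S k := Ideal.Quotient.mk (I k) (X j)

lemma x_mem (j : Fin 5) : x k j ∈ gr k 1 := QG.mk_mem _ _ (isHomogeneous_X k j)

lemma x_rel : x k 0 ^ 2 + x k 1 * x k 2 + x k 3 * x k 4 = 0 := by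
  have h : Ideal.Quotient.mk (I k) (q k) = 0 :=
    Ideal.Quotient.eq_zero_iff_mem.2 (Ideal.subset_span rfl)
  rw [← h, q, map_add, map_add, map_pow, map_mul, map_mul]
  rfl

lemma mk_mem_gr {f : MvPolynomial (Fin 5) k} {m : ℕ} (hf : f.IsHomogeneous m) :
    Ideal.Quotient.mk (I k) f ∈ gr k m := QG.mk_mem _ _ hf

lemma exists_of_mem_gr {s : S k} {m : ℕ} (hs : s ∈ gr k m) :
    ∃ f : MvPolynomial (Fin 5) k, f.IsHomogeneous m ∧ Ideal.Quotient.mk (I k) f = s := by
  obtain ⟨f, hf, h⟩ := hs
  exact ⟨f, hf, h⟩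

/-- the quotient map is a graded homomorphism -/
noncomputable def quo (k : Type) [Field k] : homogeneousSubmodule (Fin (4 + 1)) k →+*ᵍ gr k :=
  { Ideal.Quotient.mk (I k) with
    map_mem := fun h => QG.mk_mem _ _ h }

lemma quo_surjective : Function.Surjective (quo k) := Ideal.Quotient.mk_surjective

variable [CharP k 2]

instance : IsDomain (S k) := Ideal.Quotient.isDomain _

lemma x_ne_zero (j : Fin 5) : x k j ≠ 0 := by
  intro h
  rw [x, Ideal.Quotient.eq_zero_iff_mem, I, Ideal.mem_span_singleton] at h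
  have h1 := (isHomogeneous_X k j).totalDegree (X_ne_zero j)
  obtain ⟨g, hg⟩ := h
  have hq : q k ≠ 0 := (q_prime k).ne_zero
  have hg0 : g ≠ 0 := by
    rintro rfl
    rw [mul_zero] at hg
    exact X_ne_zero j hg
  rw [hg, MvPolynomial.totalDegree_mul_of_isDomain hq hg0,
    (show (q k).IsHomogeneous 2 from q_mem k).totalDegree hq] at h1
  omega

instance : Nontrivial (S k) := inferInstance

/-- The hyperplane section `x₁ = 0` is integral. -/
lemma x1_prime : Prime (x k 1) := by
  rw [← Ideal.span_singleton_prime (x_ne_zero k 1)]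
  have h1 : (Ideal.span {x k 1}).comap (Ideal.Quotient.mk (I k)) = Ideal.span {q k, X 1} := by
    have : (Ideal.span {x k 1}) = (Ideal.span {X 1}).map (Ideal.Quotient.mk (I k)) := by
      rw [Ideal.map_span, Set.image_singleton]
      rfl
    rw [this, Ideal.comap_map_of_surjective' _ Ideal.Quotient.mk_surjective, Ideal.mk_ker, I,
      ← Ideal.span_union]
    congr 1
    ext z
    simp [or_comm]
  have h2 := span_q_x1_prime k
  rw [← h1] at h2
  have h3 := Ideal.map_isPrime_of_surjective (f := Ideal.Quotient.mk (I k))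
    Ideal.Quotient.mk_surjective (I := (Ideal.span {x k 1}).comap (Ideal.Quotient.mk (I k)))
    (fun z hz => by
      rw [Ideal.mem_comap, (show Ideal.Quotient.mk (I k) z = 0 from hz)]
      exact zero_mem _)
  rwa [Ideal.map_comap_of_surjective _ Ideal.Quotient.mk_surjective] at h3

end Ring

end Pool.Agent.Helper511T
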