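import Pool.Agent.Helper511_AmpleT.Chart
import Pool.Agent.Helper165.StdSmooth
import Pool.Agent.H952R2.UlrichD5
import Pool.Agent.H992R2.U.D4b
import Pool.Agent.H342R2.U.D2c

set_option autoImplicit false
set_option linter.unusedSectionVars false

/-!
The quadric threefold: smoothness, integrality, the embedding into `ℙ⁴`.
-/

open MvPolynomial HomogeneousLocalization AlgebraicGeometry CategoryTheory RingHom

namespace Pool.Agent.Helper511T

attribute [local instance] MvPolynomial.gradedAlgebra

/-- smoothness of `Proj` from charts (adapted from `H159R3/SM4.lean`) -/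
theorem smooth_of_charts (n : ℕ) {k : Type} [Field k] {R : Type} [CommRing R] [Algebra k R]
    (ℬ : ℕ → Submodule k R) [GradedAlgebra ℬ] (B : Type) [CommRing B] [Algebra k B]
    (hB : RingHom.Locally (IsStandardSmoothOfRelativeDimension n) (algebraMap k B))
    (hcov : ∀ P : Ideal R, P.IsPrime → P.IsHomogeneous ℬ →
      ¬ (HomogeneousIdeal.irrelevant ℬ).toIdeal ≤ P →
        ∃ t ∈ ℬ 1, t ∉ P ∧ ∃ e : B ≃+* Away ℬ t, ∀ c : k, e (algebraMap k B c) =
          fromZeroRingHom ℬ (Submonoid.powers t) (algebraMap k (ℬ 0) c)) :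
    SmoothOfRelativeDimension n (H944U.toSpecK ℬ) := by
  have hcov' : ∀ x : Proj ℬ, ∃ t ∈ ℬ 1, x ∈ Proj.basicOpen ℬ t ∧
      ∃ e : B ≃+* Away ℬ t, ∀ c : k, e (algebraMap k B c) =
          fromZeroRingHom ℬ (Submonoid.powers t) (algebraMap k (ℬ 0) c) := by
    intro x
    obtain ⟨t, ht, htP, e, he⟩ := hcov x.asHomogeneousIdeal.toIdeal x.isPrime
      x.asHomogeneousIdeal.isHomogeneous x.not_irrelevant_le
    exact ⟨t, ht, htP, e, he⟩
  choose t ht hx e he using hcov'
  let 𝒰 : (Proj ℬ).AffineOpenCover :=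
    { I₀ := Proj ℬ
      X := fun x => .of (Away ℬ (t x))
      f := fun x => Proj.awayι ℬ (t x) (ht x) one_pos
      idx := fun x => x
      covers := fun x => by
        change x ∈ (Proj.awayι ℬ _ _ _).opensRange
        rw [Proj.opensRange_awayι]
        exact hx x }
  have hP : HasRingHomProperty (@SmoothOfRelativeDimension.{0} n)
      (Locally (IsStandardSmoothOfRelativeDimension n)) := inferInstance
  have hS : IsZariskiLocalAtSource (@SmoothOfRelativeDimension.{0} n) :=
    HasRingHomProperty.instIsZariskiLocalAtSource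
      (Q := Locally (IsStandardSmoothOfRelativeDimension n))
  refine IsZariskiLocalAtSource.of_openCover (P := @SmoothOfRelativeDimension.{0} n)
    𝒰.openCover ?_
  have key : ∀ x : Proj ℬ, SmoothOfRelativeDimension n
      (Proj.awayι ℬ (t x) (ht x) one_pos ≫ H944U.toSpecK ℬ) := by
    intro x
    have h1 : Proj.awayι ℬ (t x) (ht x) one_pos ≫ H944U.toSpecK ℬ =
        Spec.map (CommRingCat.ofHom ((fromZeroRingHom ℬ (Submonoid.powers (t x))).comp
          (algebraMap k (ℬ 0)))) := by
      rw [H944U.toSpecK, Proj.awayι_toSpecZero_assoc, ← Spec.map_comp]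
      rfl
    rw [h1]
    rw [HasRingHomProperty.Spec_iff (P := @SmoothOfRelativeDimension.{0} n)]
    have h2 : (fromZeroRingHom ℬ (Submonoid.powers (t x))).comp (algebraMap k (ℬ 0)) =
        (e x).toRingHom.comp (algebraMap k B) := by
      ext1 c
      exact (he x c).symm
    rw [h2]
    exact (locally_respectsIso (isStandardSmoothOfRelativeDimension_respectsIso)).1 _ _ hB
  exact fun x => key x

lemma smooth_space (k : Type) [Field k] :
    RingHom.Locally (RingHom.IsStandardSmoothOfRelativeDimension 3)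
    (algebraMap k (MvPolynomial (Fin 3) k)) := by
  refine RingHom.locally_of RingHom.isStandardSmoothOfRelativeDimension_respectsIso _ ?_
  rw [RingHom.isStandardSmoothOfRelativeDimension_algebraMap]
  have h := Pool.Agent.Helper165.isStandardSmooth_of_bijective (R := k)
    (S := MvPolynomial (Fin 3) k) (ι := Fin 3) (fun i => MvPolynomial.X i) (by
      rw [show MvPolynomial.aeval (fun i => (MvPolynomial.X i : MvPolynomial (Fin 3) k)) =
        AlgHom.id k _ from MvPolynomial.aeval_X_left]
      exact Function.bijective_id)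
  rwa [Nat.card_fin] at h

variable (k : Type) [Field k]

lemma irrelevant_le {P : Ideal (S k)} (h : ∀ j, x k j ∈ P) :
    (HomogeneousIdeal.irrelevant (gr k)).toIdeal ≤ P := by
  rw [HomogeneousIdeal.toIdeal_irrelevant_le]
  intro i hi a ha
  obtain ⟨f, hf, rfl⟩ := exists_of_mem_gr k ha
  have h1 : f ∈ Ideal.span (MvPolynomial.X '' (Set.univ : Set (Fin 5)) :
      Set (MvPolynomial (Fin 5) k)) := by
    rw [mem_ideal_span_X_image]
    intro m hm
    have h2 : m.degree = i := by
      by_contra h2
      exact (mem_support_iff.1 hm) (hf.coeff_eq_zero h2)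
    by_contra h3
    push Not at h3
    have h4 : m = 0 := by
      ext j
      exact h3 j (Set.mem_univ j)
    rw [h4, map_zero] at h2
    omega
  have h2 : Ideal.span (MvPolynomial.X '' (Set.univ : Set (Fin 5)) :
      Set (MvPolynomial (Fin 5) k)) ≤ P.comap (Ideal.Quotient.mk (I k)) := by
    rw [Ideal.span_le]
    rintro _ ⟨j, -, rfl⟩
    exact h j
  exact h2 h1

/-- Each prime which does not contain the irrelevant ideal omits one of `x₁, …, x₄`. -/
lemma exists_notMem {P : Ideal (S k)} (hP : P.IsPrime)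
    (h : ¬ (HomogeneousIdeal.irrelevant (gr k)).toIdeal ≤ P) :
    x k 1 ∉ P ∨ x k 2 ∉ P ∨ x k 3 ∉ P ∨ x k 4 ∉ P := by
  by_contra hc
  push Not at hc
  obtain ⟨h1, h2, h3, h4⟩ := hc
  apply h
  apply irrelevant_le
  have h0 : x k 0 ∈ P := by
    apply hP.mem_of_pow_mem 2
    have : x k 0 ^ 2 = -(x k 1 * x k 2 + x k 3 * x k 4) := by
      linear_combination x_rel k
    rw [this]
    exact neg_mem (add_mem (Ideal.mul_mem_right _ _ h1) (Ideal.mul_mem_right _ _ h3))
  intro j
  fin_cases j
  exacts [h0, h1, h2, h3, h4]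

lemma smooth_quadric : SmoothOfRelativeDimension 3 (H944U.toSpecK (gr k)) := by
  refine smooth_of_charts 3 (gr k) (MvPolynomial (Fin 3) k) (smooth_space k) ?_
  intro P hP _ hirr
  rcases exists_notMem k hP hirr with h | h | h | h
  · exact ⟨_, x_mem k 1, h, (chart1 k).equiv, fun c => (chart1 k).α_C c⟩
  · exact ⟨_, x_mem k 2, h, (chart2 k).equiv, fun c => (chart2 k).α_C c⟩
  · exact ⟨_, x_mem k 3, h, (chart3 k).equiv, fun c => (chart3 k).α_C c⟩
  · exact ⟨_, x_mem k 4, h, (chart4 k).equiv, fun c => (chart4 k).α_C c⟩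

/-- the embedding of the quadric -/
noncomputable def emb : Proj (gr k) ⟶ H944U.PP k 4 :=
  Proj.map (quo k) (H952UL.D5h (quo k) (quo_surjective k))

lemma emb_closed : IsClosedImmersion (emb k) := H952UL.D2a (quo k) (quo_surjective k)

lemma emb_comp : emb k ≫ H944U.toSpecK (homogeneousSubmodule (Fin (4 + 1)) k) =
    H944U.toSpecK (gr k) :=
  H944U.H992.D2b (quo k) _ (fun _ => rfl)

lemma smooth_emb : SmoothOfRelativeDimension 3
    (emb k ≫ H944U.toSpecK (homogeneousSubmodule (Fin (4 + 1)) k)) := by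
  rw [emb_comp]
  exact smooth_quadric k

lemma integral_quadric [CharP k 2] : IsIntegral (Proj (gr k)) :=
  H342U.D2c ⟨x k 0, x_mem k 0, x_ne_zero k 0⟩

end Pool.Agent.Helper511T
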