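import Pool.Agent.W506.S1

set_option autoImplicit false

/-!
The tangent sheaf of a scheme over a field, as a sheaf of modules.
-/

universe u

open CategoryTheory Limits TopologicalSpace AlgebraicGeometry Opposite

namespace Pool.Agent.Helper511T

open Pool.Agent.W506 (ro ro_ro ro_refl rs)

variable {k : Type u} [Field k] {X : Scheme.{u}} (π : X ⟶ Spec (CommRingCat.of k))

/-- The constants: the ring homomorphism `k → Γ(X, U)` of a scheme `π : X ⟶ Spec k` over `k`. -/
noncomputable def const (U : X.Opens) : k →+* Γ(X, U) :=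
  (ro (le_top : U ≤ ⊤)).comp ((Scheme.ΓSpecIso (CommRingCat.of k)).inv ≫ π.appTop).hom

lemma ro_const {U V : X.Opens} (h : U ≤ V) (c : k) : ro h (const π V c) = const π U c := by
  rw [const, const, RingHom.comp_apply, RingHom.comp_apply, ro_ro]

/-- The vector fields over the open set `U`: the `k`-derivations of the sheaf of rings `O_U`, i.e.
the families of `k`-derivations `app V : Γ(X, V) → Γ(X, V)`, for `V ≤ U` open, which are compatible
with restriction. -/
structure VF (U : X.Opens) where
  /-- the derivation of the ring of functions on `V` -/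
  app : ∀ V : X.Opens, V ≤ U → Γ(X, V) → Γ(X, V)
  map_add' : ∀ (V : X.Opens) (h : V ≤ U) (a b : Γ(X, V)),
    app V h (a + b) = app V h a + app V h b
  leibniz : ∀ (V : X.Opens) (h : V ≤ U) (a b : Γ(X, V)),
    app V h (a * b) = a * app V h b + b * app V h a
  map_const : ∀ (V : X.Opens) (h : V ≤ U) (c : k), app V h (const π V c) = 0
  res : ∀ (V : X.Opens) (h : V ≤ U) (W : X.Opens) (hW : W ≤ V) (a : Γ(X, V)),
    ro hW (app V h a) = app W (hW.trans h) (ro hW a)

variable {π}

namespace VF

variable {U : X.Opens}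

lemma ext' {D E : VF π U} (h : ∀ V hV a, D.app V hV a = E.app V hV a) : D = E := by
  cases D
  cases E
  congr 1
  funext V hV a
  exact h V hV a

/-- the sum of two vector fields -/
def add (D E : VF π U) : VF π U where
  app V h a := D.app V h a + E.app V h a
  map_add' V h a b := by rw [D.map_add', E.map_add']; exact add_add_add_comm _ _ _ _
  leibniz V h a b := by rw [D.leibniz, E.leibniz]; ring
  map_const V h c := by rw [D.map_const, E.map_const, add_zero]
  res V h W hW a := by rw [RingHom.map_add, D.res V h W hW, E.res V h W hW]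

/-- the zero vector field -/
def zero : VF π U where
  app _ _ _ := 0
  map_add' _ _ _ _ := (add_zero 0).symm
  leibniz _ _ _ _ := by rw [mul_zero, mul_zero, add_zero]
  map_const _ _ _ := rfl
  res _ _ _ _ _ := RingHom.map_zero _

/-- the negative of a vector field -/
def neg (D : VF π U) : VF π U where
  app V h a := -D.app V h a
  map_add' V h a b := by rw [D.map_add']; exact neg_add _ _
  leibniz V h a b := by rw [D.leibniz]; ring
  map_const V h c := by rw [D.map_const, neg_zero]
  res V h W hW a := by rw [RingHom.map_neg, D.res V h W hW]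

/-- the product of a function and a vector field -/
noncomputable def smul (f : Γ(X, U)) (D : VF π U) : VF π U where
  app V h a := ro h f * D.app V h a
  map_add' V h a b := by rw [D.map_add', mul_add]
  leibniz V h a b := by rw [D.leibniz]; ring
  map_const V h c := by rw [D.map_const, mul_zero]
  res V h W hW a := by rw [RingHom.map_mul, ro_ro, D.res V h W hW]

/-- the restriction of a vector field -/
def restr {U' : X.Opens} (h : U' ≤ U) (D : VF π U) : VF π U' where
  app V hV a := D.app V (hV.trans h) a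
  map_add' V hV a b := D.map_add' V (hV.trans h) a b
  leibniz V hV a b := D.leibniz V (hV.trans h) a b
  map_const V hV c := D.map_const V (hV.trans h) c
  res V hV W hW a := D.res V (hV.trans h) W hW a

lemma add_assoc' (D E F : VF π U) : add (add D E) F = add D (add E F) :=
  ext' fun _ _ _ => add_assoc _ _ _

lemma add_comm' (D E : VF π U) : add D E = add E D := ext' fun _ _ _ => add_comm _ _

lemma zero_add' (D : VF π U) : add zero D = D := ext' fun _ _ _ => zero_add _

lemma add_zero' (D : VF π U) : add D zero = D := ext' fun _ _ _ => add_zero _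

lemma neg_add' (D : VF π U) : add (neg D) D = zero := ext' fun _ _ _ => neg_add_cancel _

instance instZero (π : X ⟶ Spec (CommRingCat.of k)) (U : X.Opens) : Zero (VF π U) := ⟨zero⟩

instance instAdd (π : X ⟶ Spec (CommRingCat.of k)) (U : X.Opens) : Add (VF π U) := ⟨add⟩

instance instNeg (π : X ⟶ Spec (CommRingCat.of k)) (U : X.Opens) : Neg (VF π U) := ⟨neg⟩

/-- The vector fields over `U` form an abelian group. -/
instance addCommGroup (π : X ⟶ Spec (CommRingCat.of k)) (U : X.Opens) :
    AddCommGroup (VF π U) where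
  add_assoc := add_assoc'
  zero_add := zero_add'
  add_zero := add_zero'
  nsmul := nsmulRec
  zsmul := zsmulRec
  neg_add_cancel := neg_add'
  add_comm := add_comm'

noncomputable instance instSMul (π : X ⟶ Spec (CommRingCat.of k)) (U : X.Opens) :
    SMul Γ(X, U) (VF π U) := ⟨smul⟩

lemma one_smul' (D : VF π U) : (1 : Γ(X, U)) • D = D := ext' fun V h a => by
  change ro h 1 * D.app V h a = D.app V h a
  rw [RingHom.map_one, one_mul]

lemma mul_smul' (f g : Γ(X, U)) (D : VF π U) : (f * g) • D = f • g • D := ext' fun V h a => by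
  change ro h (f * g) * D.app V h a = ro h f * (ro h g * D.app V h a)
  rw [RingHom.map_mul, mul_assoc]

lemma smul_zero' (f : Γ(X, U)) : f • (0 : VF π U) = 0 := ext' fun _ _ _ => mul_zero _

lemma zero_smul' (D : VF π U) : (0 : Γ(X, U)) • D = 0 := ext' fun V h a => by
  change ro h 0 * D.app V h a = 0
  rw [RingHom.map_zero, zero_mul]

lemma smul_add' (f : Γ(X, U)) (D E : VF π U) : f • (D + E) = f • D + f • E :=
  ext' fun _ _ _ => mul_add _ _ _

lemma add_smul' (f g : Γ(X, U)) (D : VF π U) : (f + g) • D = f • D + g • D := ext' fun V h a => by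
  change ro h (f + g) * D.app V h a = ro h f * D.app V h a + ro h g * D.app V h a
  rw [RingHom.map_add, add_mul]

/-- The vector fields over `U` form a module over the functions on `U`:
`(f • D) a = f * D a`. -/
noncomputable instance module (π : X ⟶ Spec (CommRingCat.of k)) (U : X.Opens) :
    Module Γ(X, U) (VF π U) where
  one_smul := one_smul'
  mul_smul := mul_smul'
  smul_zero := smul_zero'
  smul_add := smul_add'
  add_smul := add_smul'
  zero_smul := zero_smul'

lemma smul_app (f : Γ(X, U)) (D : VF π U) (V : X.Opens) (h : V ≤ U)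
    (a : Γ(X, V)) : (f • D).app V h a = ro h f * D.app V h a := rfl

lemma restr_add {U' : X.Opens} (h : U' ≤ U) (D E : VF π U) :
    restr h (D + E) = restr h D + restr h E := rfl

lemma restr_zero {U' : X.Opens} (h : U' ≤ U) : restr h (0 : VF π U) = 0 := rfl

lemma restr_smul {U' : X.Opens} (h : U' ≤ U) (f : Γ(X, U)) (D : VF π U) :
    restr h (f • D) = ro h f • restr h D := ext' fun V hV a => by
  change ro (hV.trans h) f * D.app V (hV.trans h) a = ro hV (ro h f) * D.app V (hV.trans h) a
  rw [ro_ro]

/-- The restriction as a homomorphism. -/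
def restrHom (π : X ⟶ Spec (CommRingCat.of k)) {U U' : X.Opens} (h : U' ≤ U) :
    VF π U →+ VF π U' where
  toFun := restr h
  map_zero' := restr_zero h
  map_add' := restr_add h

end VF

variable (π)

/-- the abelian group of the vector fields over `U` -/
noncomputable abbrev vfObj (U : (Opens X)ᵒᵖ) : AddCommGrpCat.{u} := AddCommGrpCat.of (VF π U.unop)

/-- restriction -/
noncomputable abbrev vfMap {U U' : (Opens X)ᵒᵖ} (f : U ⟶ U') : vfObj π U ⟶ vfObj π U' :=
  AddCommGrpCat.ofHom (VF.restrHom π f.unop.le)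

lemma vfMap_id (U : (Opens X)ᵒᵖ) : vfMap π (𝟙 U) = 𝟙 (vfObj π U) := rfl

lemma vfMap_comp {U U' U'' : (Opens X)ᵒᵖ} (f : U ⟶ U') (g : U' ⟶ U'') :
    vfMap π (f ≫ g) = vfMap π f ≫ vfMap π g := rfl

/-- The presheaf of abelian groups of vector fields. -/
noncomputable def vfPresheaf : (Opens X)ᵒᵖ ⥤ AddCommGrpCat.{u} where
  obj U := vfObj π U
  map f := vfMap π f
  map_id := vfMap_id π
  map_comp := vfMap_comp π

/-- The module structure on the values of the presheaf of vector fields. -/
noncomputable instance vfPresheafModule (U : (Opens X)ᵒᵖ) :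
    Module (X.ringCatSheaf.obj.obj U) ((vfPresheaf π).obj U) := VF.module π U.unop

lemma vfPresheaf_map_smul {U U' : (Opens X)ᵒᵖ} (f : U ⟶ U') (r : X.ringCatSheaf.obj.obj U)
    (m : (vfPresheaf π).obj U) : (vfPresheaf π).map f (r • m) =
      (X.ringCatSheaf.obj.map f r) • ((vfPresheaf π).map f m) :=
  VF.restr_smul f.unop.le (r : Γ(X, U.unop)) m

/-- The presheaf of modules of vector fields. -/
noncomputable def vfModule : X.PresheafOfModules :=
  PresheafOfModules.ofPresheaf (vfPresheaf π) fun _ _ f r m => vfPresheaf_map_smul π f r m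

/-- Gluing of functions. -/
lemma exists_glue_fun {ι : Type u} (U : ι → X.Opens) (V : X.Opens) (hU : ∀ i, U i ≤ V)
    (hc : V ≤ iSup U) (t : ∀ i, Γ(X, U i))
    (ht : ∀ i j, ro (inf_le_left : U i ⊓ U j ≤ U i) (t i) = ro inf_le_right (t j)) :
    ∃ s : Γ(X, V), ∀ i, ro (hU i) s = t i :=
  (X.sheaf.existsUnique_gluing' U V (fun i => homOfLE (hU i)) hc t ht).exists

lemma ext_fun {ι : Type u} (U : ι → X.Opens) (V : X.Opens) (hU : ∀ i, U i ≤ V)
    (hc : V ≤ iSup U) {s t : Γ(X, V)} (h : ∀ i, ro (hU i) s = ro (hU i) t) : s = t :=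
  X.sheaf.eq_of_locally_eq' U V (fun i => homOfLE (hU i)) hc s t h

theorem vf_glue {ι : Type u} (U : ι → X.Opens) (D : ∀ i, VF π (U i))
    (hD : ∀ i j (V : X.Opens) (hi : V ≤ U i) (hj : V ≤ U j) (a : Γ(X, V)),
      (D i).app V hi a = (D j).app V hj a) :
    ∃ E : VF π (iSup U), ∀ i (V : X.Opens) (h : V ≤ U i) (a : Γ(X, V)),
      E.app V (h.trans (le_iSup U i)) a = (D i).app V h a := by
  have hcov : ∀ V : X.Opens, V ≤ iSup U → V ≤ ⨆ i, V ⊓ U i := by
    intro V hV
    rw [← inf_iSup_eq]
    exact le_inf le_rfl hV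
  have key : ∀ (V : X.Opens) (hV : V ≤ iSup U) (a : Γ(X, V)), ∃ s : Γ(X, V),
      ∀ i, ro (inf_le_left : V ⊓ U i ≤ V) s =
        (D i).app (V ⊓ U i) inf_le_right (ro inf_le_left a) := by
    intro V hV a
    apply exists_glue_fun (fun i => V ⊓ U i) V (fun i => inf_le_left) (hcov V hV)
    intro i j
    rw [(D i).res (V ⊓ U i) inf_le_right ((V ⊓ U i) ⊓ (V ⊓ U j)) inf_le_left,
      (D j).res (V ⊓ U j) inf_le_right ((V ⊓ U i) ⊓ (V ⊓ U j)) inf_le_right, ro_ro, ro_ro]
    exact hD i j _ _ _ _
  choose E hE using key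
  have hext : ∀ (V : X.Opens) (hV : V ≤ iSup U) (s t : Γ(X, V)),
      (∀ i, ro (inf_le_left : V ⊓ U i ≤ V) s = ro inf_le_left t) → s = t := fun V hV s t h =>
    ext_fun (fun i => V ⊓ U i) V (fun i => inf_le_left) (hcov V hV) h
  refine ⟨⟨E, ?_, ?_, ?_, ?_⟩, ?_⟩
  · intro V hV a b
    apply hext V hV
    intro i
    rw [RingHom.map_add, hE, hE, hE, RingHom.map_add, (D i).map_add']
  · intro V hV a b
    apply hext V hV
    intro i
    rw [RingHom.map_add, RingHom.map_mul, RingHom.map_mul, hE, hE, hE, RingHom.map_mul,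
      (D i).leibniz]
  · intro V hV c
    apply hext V hV
    intro i
    rw [hE, RingHom.map_zero, ro_const, (D i).map_const]
  · intro V hV W hW a
    apply hext W (hW.trans hV)
    intro i
    rw [ro_ro, hE]
    have h1 : ro (inf_le_left.trans hW : W ⊓ U i ≤ V) (E V hV a) =
        ro (inf_le_inf_right (U i) hW : W ⊓ U i ≤ V ⊓ U i) (ro inf_le_left (E V hV a)) := by
      rw [ro_ro]
    rw [h1, hE, (D i).res (V ⊓ U i) inf_le_right (W ⊓ U i) (inf_le_inf_right (U i) hW), ro_ro,
      ro_ro]
  · intro i V h a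
    change E V (h.trans (le_iSup U i)) a = (D i).app V h a
    have h2 := congrArg (ro (le_inf le_rfl h : V ≤ V ⊓ U i))
      (hE V (h.trans (le_iSup U i)) a i)
    rw [ro_ro, ro_refl, (D i).res (V ⊓ U i) inf_le_right V (le_inf le_rfl h), ro_ro,
      ro_refl] at h2
    exact h2

theorem vf_isSheaf : TopCat.Presheaf.IsSheaf (vfPresheaf π) := by
  rw [TopCat.Presheaf.isSheaf_iff_isSheafUniqueGluing]
  intro ι U D hD
  have hD' : ∀ i j (V : X.Opens) (hi : V ≤ U i) (hj : V ≤ U j) (a : Γ(X, V)),
      (D i : VF π (U i)).app V hi a = (D j : VF π (U j)).app V hj a := by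
    intro i j V hi hj a
    exact congrArg (fun z : VF π (U i ⊓ U j) => z.app V (le_inf hi hj) a) (hD i j)
  obtain ⟨E, hE⟩ := vf_glue π U (fun i => (D i : VF π (U i))) hD'
  refine ⟨E, ?_, ?_⟩
  · intro i
    exact VF.ext' (π := π) fun V hV a => hE i V hV a
  · intro E' hE'
    have hE'' : ∀ i, VF.restr (le_iSup U i) (E' : VF π (iSup U)) = (D i : VF π (U i)) := hE'
    refine VF.ext' (π := π) (D := (E' : VF π (iSup U))) (E := E) fun V hV a => ?_
    apply ext_fun (fun i => V ⊓ U i) V (fun i => inf_le_left)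
      (by rw [← inf_iSup_eq]; exact le_inf le_rfl hV)
    intro i
    have h1 := congrArg (fun z : VF π (U i) => z.app (V ⊓ U i) inf_le_right
      (ro inf_le_left a)) (hE'' i)
    have h2 := hE i (V ⊓ U i) inf_le_right (ro inf_le_left a)
    rw [VF.res (E' : VF π (iSup U)) V hV (V ⊓ U i) inf_le_left,
      VF.res E V hV (V ⊓ U i) inf_le_left, h2]
    exact h1

/-- The tangent sheaf of `π : X ⟶ Spec k`: the sections over `U` are the `k`-derivations of the
sheaf of rings `O_U`. -/
noncomputable def tangentSheaf : X.Modules :=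
  (⟨vfModule π, vf_isSheaf π⟩ : SheafOfModules X.ringCatSheaf)

end Pool.Agent.Helper511T
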